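import Pool.Agent.H934R2.Ch.Conv

/-!
Chamberland's map: enclosures for the deviation of a real orbit above an integer orbit.
-/

set_option autoImplicit false

namespace Pool.Agent.Helper29K9.Cham

open Pool.Agent.H934R2.Ch

theorem cos_ge (d : ℝ) : 1 - Real.cos (Real.pi * d) ≤ 9.8697 * d ^ 2 / 2 := by
  have h := cos_lb2 (Real.pi * d)
  have h1 := pi_sq_lt
  have h2 : (Real.pi * d) ^ 2 = Real.pi ^ 2 * d ^ 2 := by ring
  rw [h2] at h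
  nlinarith [sq_nonneg d]

theorem cos_le {d : ℝ} (h0 : 0 ≤ d) :
    9.8695 * d ^ 2 / 2 - 97.411 * d ^ 4 / 24 ≤ 1 - Real.cos (Real.pi * d) := by
  have h := cos_ub4 (t := Real.pi * d) (mul_nonneg Real.pi_pos.le h0)
  have ha := pi_sq_lt
  have hb := pi_sq_gt
  have h2 : (Real.pi * d) ^ 2 = Real.pi ^ 2 * d ^ 2 := by ring
  have h4 : (Real.pi * d) ^ 4 = (Real.pi ^ 2) ^ 2 * d ^ 4 := by ring
  rw [h2, h4] at h
  have h5 : (Real.pi ^ 2) ^ 2 ≤ 97.411 := by nlinarith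
  have h6 : 0 ≤ d ^ 2 := sq_nonneg d
  have h7 : 0 ≤ d ^ 4 := by positivity
  nlinarith

theorem cos_ge6 {d : ℝ} (h0 : 0 ≤ d) :
    1 - Real.cos (Real.pi * d) ≤ 9.8697 * d ^ 2 / 2 - 97.407 * d ^ 4 / 24 + 962 * d ^ 6 / 720 := by
  have h := cos_lb6 (t := Real.pi * d) (mul_nonneg Real.pi_pos.le h0)
  have ha := pi_sq_lt
  have hb := pi_sq_gt
  have h2 : (Real.pi * d) ^ 2 = Real.pi ^ 2 * d ^ 2 := by ring
  have h4 : (Real.pi * d) ^ 4 = (Real.pi ^ 2) ^ 2 * d ^ 4 := by ring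
  have h6 : (Real.pi * d) ^ 6 = (Real.pi ^ 2) ^ 3 * d ^ 6 := by ring
  rw [h2, h4, h6] at h
  have h5 : 97.407 ≤ (Real.pi ^ 2) ^ 2 := by
    have : (9.8695 : ℝ) ^ 2 ≤ (Real.pi ^ 2) ^ 2 := pow_le_pow_left₀ (by norm_num) hb.le 2
    norm_num at this ⊢
    linarith
  have h5' : (Real.pi ^ 2) ^ 3 ≤ 962 := by
    have : (Real.pi ^ 2) ^ 3 ≤ 9.8697 ^ 3 := pow_le_pow_left₀ (by positivity) ha.le 3
    norm_num at this ⊢
    linarith
  have h7 : 0 ≤ d ^ 2 := sq_nonneg d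
  have h8 : 0 ≤ d ^ 4 := by positivity
  have h9 : 0 ≤ d ^ 6 := by positivity
  nlinarith

/-- upper bound at an even integer -/
theorem up_even (m : ℕ) {E E' : ℝ} (h : E / 2 + (4 * m + 1 + 2 * E) / 8 * (9.8697 * E ^ 2) ≤ E')
    {x : ℝ} (h1 : ((2 * m : ℕ) : ℝ) ≤ x) (h2 : x ≤ (2 * m : ℕ) + E) :
    (m : ℝ) ≤ f x ∧ f x ≤ m + E' := by
  obtain ⟨d, rfl⟩ : ∃ d, x = (2 * m : ℕ) + d := ⟨x - (2 * m : ℕ), by ring⟩
  have hd0 : 0 ≤ d := by linarith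
  have hd1 : d ≤ E := by linarith
  rw [f_even]
  have hm : (0 : ℝ) ≤ m := by positivity
  have hc := cos_ge d
  have hc1 := Real.cos_le_one (Real.pi * d)
  set s := 1 - Real.cos (Real.pi * d) with hs
  have hs0 : 0 ≤ s := by rw [hs]; linarith
  have e : (4 * (m : ℝ) + 1) / 4 * s + d * (1 - Real.cos (Real.pi * d) / 2) =
      d / 2 + (4 * m + 1 + 2 * d) / 4 * s := by rw [hs]; ring
  rw [e]
  constructor
  · have : 0 ≤ (4 * (m : ℝ) + 1 + 2 * d) / 4 * s := by positivity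
    linarith
  · have h3 : (4 * (m : ℝ) + 1 + 2 * d) / 4 * s ≤ (4 * m + 1 + 2 * E) / 4 * (9.8697 * E ^ 2 / 2) := by
      apply mul_le_mul (by linarith) _ hs0 (by linarith)
      refine hc.trans ?_
      have : d ^ 2 ≤ E ^ 2 := pow_le_pow_left₀ hd0 hd1 2
      linarith
    have h4 : (4 * (m : ℝ) + 1 + 2 * E) / 4 * (9.8697 * E ^ 2 / 2) =
        (4 * m + 1 + 2 * E) / 8 * (9.8697 * E ^ 2) := by ring
    linarith

/-- lower bound at an even integer -/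
theorem low_even (m : ℕ) {L L' : ℝ} (hL0 : 0 ≤ L)
    (h : L' ≤ L / 2 + (4 * m + 1 + 2 * L) / 4 * (9.8695 * L ^ 2 / 2 - 97.411 * L ^ 4 / 24))
    {x : ℝ} (h1 : (2 * m : ℕ) + L ≤ x) (h2 : x ≤ (2 * m : ℕ) + 1 / 4) :
    m + L' ≤ f x := by
  obtain ⟨d, rfl⟩ : ∃ d, x = (2 * m : ℕ) + d := ⟨x - (2 * m : ℕ), by ring⟩
  have hd0 : L ≤ d := by linarith
  have hd1 : d ≤ 1 / 4 := by linarith
  rw [f_even]
  have hm : (0 : ℝ) ≤ m := by positivity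
  have hp := Real.pi_pos
  have hcos : Real.cos (Real.pi * d) ≤ Real.cos (Real.pi * L) := by
    apply Real.cos_le_cos_of_nonneg_of_le_pi (by positivity)
    · nlinarith
    · exact mul_le_mul_of_nonneg_left hd0 hp.le
  have hc := cos_le hL0
  have hc1 := Real.cos_le_one (Real.pi * L)
  set s := 1 - Real.cos (Real.pi * d) with hs
  set s' := 1 - Real.cos (Real.pi * L) with hs'
  have hss : s' ≤ s := by rw [hs, hs']; linarith
  have hs0 : 0 ≤ s' := by rw [hs']; linarith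
  have e : (4 * (m : ℝ) + 1) / 4 * s + d * (1 - Real.cos (Real.pi * d) / 2) =
      d / 2 + (4 * m + 1 + 2 * d) / 4 * s := by rw [hs]; ring
  rw [e]
  have h3 : (4 * (m : ℝ) + 1 + 2 * L) / 4 * s' ≤ (4 * m + 1 + 2 * d) / 4 * s :=
    mul_le_mul (by linarith) hss hs0 (by linarith)
  have h4 : (4 * (m : ℝ) + 1 + 2 * L) / 4 * (9.8695 * L ^ 2 / 2 - 97.411 * L ^ 4 / 24) ≤
      (4 * (m : ℝ) + 1 + 2 * L) / 4 * s' := mul_le_mul_of_nonneg_left hc (by linarith)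
  linarith

/-- exact form at an odd integer -/
theorem f_odd' (m : ℕ) (d : ℝ) : f ((2 * m + 1 : ℕ) + d) =
    (3 * m + 2) + (3 * d / 2 - (4 * m + 3 + 2 * d) / 4 * (1 - Real.cos (Real.pi * d))) := by
  rw [f_odd]; ring

/-- upper bound at an odd integer -/
theorem up_odd (m : ℕ) {E E' : ℝ}
    (h : ∀ d : ℝ, 0 ≤ d → d ≤ E →
      3 * d / 2 - (4 * m + 3 + 2 * d) / 4 * (9.8695 * d ^ 2 / 2 - 97.411 * d ^ 4 / 24) ≤ E')
    {x : ℝ} (h1 : ((2 * m + 1 : ℕ) : ℝ) ≤ x) (h2 : x ≤ (2 * m + 1 : ℕ) + E) :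
    f x ≤ (3 * m + 2) + E' := by
  obtain ⟨d, rfl⟩ : ∃ d, x = (2 * m + 1 : ℕ) + d := ⟨x - (2 * m + 1 : ℕ), by ring⟩
  have hd0 : 0 ≤ d := by linarith
  have hd1 : d ≤ E := by linarith
  rw [f_odd']
  have hm : (0 : ℝ) ≤ m := by positivity
  have hc := cos_le hd0
  have h3 := mul_le_mul_of_nonneg_left hc (by positivity : 0 ≤ (4 * (m : ℝ) + 3 + 2 * d) / 4)
  have h4 := h d hd0 hd1
  linarith

/-- lower bound at an odd integer -/
theorem low_odd (m : ℕ) {L E L' : ℝ} (hL : 0 ≤ L)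
    (h : ∀ d : ℝ, L ≤ d → d ≤ E →
      L' ≤ 3 * d / 2 - (4 * m + 3 + 2 * d) / 4 *
        (9.8697 * d ^ 2 / 2 - 97.407 * d ^ 4 / 24 + 962 * d ^ 6 / 720))
    {x : ℝ} (h1 : (2 * m + 1 : ℕ) + L ≤ x) (h2 : x ≤ (2 * m + 1 : ℕ) + E) :
    (3 * m + 2) + L' ≤ f x := by
  obtain ⟨d, rfl⟩ : ∃ d, x = (2 * m + 1 : ℕ) + d := ⟨x - (2 * m + 1 : ℕ), by ring⟩
  have hd0 : L ≤ d := by linarith
  have hd1 : d ≤ E := by linarith
  have hd00 : 0 ≤ d := hL.trans hd0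
  rw [f_odd']
  have hc := cos_ge6 hd00
  have h3 := mul_le_mul_of_nonneg_left hc (by positivity : 0 ≤ (4 * (m : ℝ) + 3 + 2 * d) / 4)
  have h4 := h d hd0 hd1
  linarith

end Pool.Agent.Helper29K9.Cham
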