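import Pool.Agent.Helper29K9.Cham.Odd

/-!
Chamberland's map: the fate of the critical points below even integers `2 m` with `T^k m ≤ 5 m`.
-/

set_option autoImplicit false

namespace Pool.Agent.Helper29K9.Cham

open Pool.Agent.H934R2.Ch Pool.Agent.Y296.CB Filter Topology

/-- the critical value is below `m` -/
theorem crit_even_lt {m : ℕ} (hm : 1 ≤ m) {c : ℝ} (hc : |c - (2 * m : ℕ)| < 1 / 2)
    (h : deriv f c = 0) : f c < m := by
  obtain ⟨h1, h2⟩ := crit_zone hm hc h
  have hd0 : 0 < df ((2 * m : ℕ) : ℝ) := by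
    have := df_pos_even m 0 le_rfl (by norm_num)
    rwa [add_zero] at this
  have hne : c ≠ (2 * m : ℕ) := by
    rintro rfl
    rw [deriv_f] at h
    linarith
  have hlt : c < (2 * m : ℕ) := lt_of_le_of_ne h1 hne
  have hu := crit_unique (n := 2 * m) (by omega)
  have hpos : ∀ s, c < s → s ≤ (2 * m : ℕ) → 0 < df s := by
    intro s hs1 hs2
    by_contra hcon
    push Not at hcon
    have hcont : ContinuousOn df (Set.Icc s ((2 * m : ℕ) : ℝ)) := continuous_df.continuousOn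
    have := intermediate_value_Icc hs2 hcont
    obtain ⟨z, ⟨hz1, hz2⟩, hz⟩ := this ⟨hcon, hd0.le⟩
    have e := hu.unique ⟨hc, h⟩ (y₂ := z) ⟨by
      rw [abs_lt] at hc ⊢
      constructor <;> linarith, by rw [deriv_f]; exact hz⟩
    linarith
  have hmono : StrictMonoOn f (Set.Icc c ((2 * m : ℕ) : ℝ)) := by
    apply strictMonoOn_of_deriv_pos (convex_Icc _ _) continuous_f.continuousOn
    intro s hs
    rw [interior_Icc] at hs
    rw [deriv_f]
    exact hpos s hs.1 hs.2.le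
  have h3 := hmono ⟨le_rfl, hlt.le⟩ ⟨hlt.le, le_rfl⟩ hlt
  rwa [f_nat, T_even] at h3

/-- an orbit below can only overshoot at a large even integer -/
theorem over_large {m n : ℕ} (hm : 1 ≤ m) (hn1 : 1 ≤ n) {x : ℝ} (h : Below (cst m) n x)
    (h2 : (T n : ℝ) ≤ f x) : n % 2 = 0 ∧ 3 * m + 1 ≤ n := by
  obtain ⟨hx, hV⟩ := h
  obtain ⟨e, he⟩ : ∃ e : ℝ, e = n - x := ⟨_, rfl⟩
  have hxe : x = n - e := by rw [he]; ring
  have he0 : 0 < e := by rw [he]; linarith
  rw [← he] at hV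
  rw [hxe] at h2
  rcases Nat.even_or_odd' n with ⟨k, rfl | rfl⟩
  · refine ⟨by omega, ?_⟩
    have hk : 1 ≤ k := by omega
    rw [T_even] at h2
    have hf := f_even k (-e)
    have e1 : ((2 * k : ℕ) : ℝ) + -e = ((2 * k : ℕ) : ℝ) - e := by ring
    have e2 : Real.pi * -e = -(Real.pi * e) := by ring
    rw [e1, e2, Real.cos_neg] at hf
    rw [hf] at h2
    have hc := cos_lb2 (Real.pi * e)
    have hc1 := Real.cos_le_one (Real.pi * e)
    set c := Real.cos (Real.pi * e) with hcd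
    have hpi := Real.pi_pos
    have hkR : (1 : ℝ) ≤ k := by exact_mod_cast hk
    have hmR : (1 : ℝ) ≤ m := by exact_mod_cast hm
    have a1 : (4 * (k : ℝ) + 1) / 4 * (1 - c) ≤ (4 * (k : ℝ) + 1) / 4 * ((Real.pi * e) ^ 2 / 2) :=
      mul_le_mul_of_nonneg_left (by linarith) (by positivity)
    have a2 : e * (1 / 2) ≤ e * (1 - c / 2) := mul_le_mul_of_nonneg_left (by linarith) he0.le
    have a3 : e * (1 / 2) ≤ e * ((4 * (k : ℝ) + 1) / 4 * (Real.pi ^ 2 * e / 2)) := by
      have : e * ((4 * (k : ℝ) + 1) / 4 * (Real.pi ^ 2 * e / 2)) =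
          (4 * (k : ℝ) + 1) / 4 * ((Real.pi * e) ^ 2 / 2) := by ring
      rw [this]
      linarith
    have a4 : 1 / 2 ≤ (4 * (k : ℝ) + 1) / 4 * (Real.pi ^ 2 * e / 2) := le_of_mul_le_mul_left a3 he0
    have hts : 1 ≤ ts (2 * k) e := by
      unfold ts
      push_cast
      linarith
    -- the Lyapunov function
    have h1 : Real.pi ^ 2 * (2 * ((2 * k : ℕ) : ℝ) + 1) / 4 * V (2 * k) e ≤
        Real.pi ^ 2 * (2 * ((2 * k : ℕ) : ℝ) + 1) / 4 * (cst m * ((2 * k : ℕ) : ℝ)) :=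
      mul_le_mul_of_nonneg_left hV (by positivity)
    have h3 : Real.pi ^ 2 * (2 * ((2 * k : ℕ) : ℝ) + 1) / 4 * V (2 * k) e =
        ts (2 * k) e / (1 + 4 / 15 * ts (2 * k) e) := by
      unfold V; rw [← mul_div_assoc]; rfl
    have h4 : Real.pi ^ 2 * (2 * ((2 * k : ℕ) : ℝ) + 1) / 4 * (cst m * ((2 * k : ℕ) : ℝ)) =
        0.1274 * ((2 * ((2 * k : ℕ) : ℝ) + 1) * ((2 * k : ℕ) : ℝ) / ((4 * m + 1) * m)) := by
      unfold cst; field_simp
    rw [h3, h4] at h1
    have h5 : 15 / 19 ≤ ts (2 * k) e / (1 + 4 / 15 * ts (2 * k) e) := by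
      rw [le_div_iff₀ (by positivity)]
      linarith
    by_contra hcon
    have hn : ((2 * k : ℕ) : ℝ) ≤ 3 * m := by
      have : 2 * k ≤ 3 * m := by omega
      exact_mod_cast this
    have hn0 : (0 : ℝ) ≤ ((2 * k : ℕ) : ℝ) := by positivity
    have h6 : (2 * ((2 * k : ℕ) : ℝ) + 1) * ((2 * k : ℕ) : ℝ) / ((4 * m + 1) * m) ≤ 4.5 := by
      rw [div_le_iff₀ (by positivity)]
      nlinarith
    linarith
  · exfalso
    rw [T_odd] at h2
    have h3 := (odd_step' k he0.le).1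
    push_cast at h2 h3
    linarith

/-- a check of the small cases -/
def chk (m i : ℕ) : Prop :=
  3 * m + 1 ≤ T^[i] m ∧ T^[i] m % 2 = 0 ∧ ∃ j ≤ 6, T^[j] (T^[i] m / 2) = 1

instance (m i : ℕ) : Decidable (chk m i) := by unfold chk; infer_instance

theorem small_check' : ∀ m ≤ 42, ∀ i ≤ 80, 1 ≤ m → chk m i → ∃ i ≤ 80, 5 * m < T^[i] m := by
  decide +kernel

theorem small_check {m i : ℕ} (h1 : m ≤ 42) (h2 : 1 ≤ m) (hT : ∀ i, T^[i] m ≤ 5 * m) (h3 : i ≤ 80)
    (h4 : 3 * m + 1 ≤ T^[i] m) (h5 : T^[i] m % 2 = 0) {j : ℕ} (hj : j ≤ 6) :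
    T^[j] (T^[i] m / 2) ≠ 1 := by
  intro h6
  obtain ⟨i', -, h7⟩ := small_check' m h1 i h3 h2 ⟨h4, h5, j, hj, h6⟩
  have := hT i'
  omega

theorem T_of_even {n : ℕ} (h : n % 2 = 0) : T n = n / 2 := by
  unfold T
  rw [if_pos h]

theorem small_time : ∀ m ≤ 42, 1 ≤ m → ∃ i ≤ 80, T^[i] m = 1 := by decide +kernel

theorem even_reach {m : ℕ} (hm : 1 ≤ m) (hT : ∀ k, T^[k] m ≤ 5 * m) {c : ℝ}
    (hc : |c - (2 * m : ℕ)| < 1 / 2) (h : deriv f c = 0) (hk : ∃ k, T^[k] m = 1) : Attracts 1 c := by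
  classical
  obtain ⟨hx, hz⟩ := crit_zone hm hc h
  have hts := ts_zone (m := m) (e := (2 * m : ℕ) - c) (by linarith) hz
  set k := Nat.find hk with hkd
  have hk1 : T^[k] m = 1 := Nat.find_spec hk
  have hmin : ∀ j < k, T^[j] m ≠ 1 := fun j hj => Nat.find_min hk hj
  by_cases hK : ∃ K, Trap (T^[K] m) (f^[K + 1] c)
  · set K := Nat.find hK with hKd
    have hK1 : Trap (T^[K] m) (f^[K + 1] c) := Nat.find_spec hK
    have hKmin : ∀ j < K, ¬ Trap (T^[j] m) (f^[j + 1] c) := fun j hj => Nat.find_min hK hj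
    have hK0 : K ≠ 0 := by
      intro h0
      rw [h0] at hK1
      have := hK1.1
      simp only [Function.iterate_zero, id, zero_add, Function.iterate_one] at this
      have := crit_even_lt hm hc h
      linarith
    obtain ⟨K', hK'⟩ := Nat.exists_eq_succ_of_ne_zero hK0
    have hbel : Below (cst m) (T^[K'] m) (f^[K' + 1] c) :=
      (follow hm hT hx hts K').resolve_right (hKmin K' (by omega))
    have hover : (T (T^[K'] m) : ℝ) ≤ f (f^[K' + 1] c) := by
      have := hK1.1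
      rw [hK', Function.iterate_succ_apply' T, Function.iterate_succ_apply' f] at this
      exact this
    obtain ⟨g1, g2⟩ := over_large hm (T_iter_pos hm K') hbel hover
    have hKk : K' < k := by
      by_contra hcon
      rcases T_after_one hk1 (not_lt.1 hcon) with h3 | h3 <;> omega
    -- the number of steps after the overshoot
    have hr7 : 7 ≤ k - K := by
      by_contra hcon
      have e1 : T^[k - K] (T^[K'] m / 2) = 1 := by
        have e2 : T^[K] m = T^[K'] m / 2 := by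
          rw [hK', Function.iterate_succ_apply', T_of_even g1]
        rw [← e2, ← Function.iterate_add_apply, show k - K + K = k by omega]
        exact hk1
      have h64 : T^[K'] m / 2 ≤ 64 := by
        have := le_two_pow (T^[K'] m / 2) (k - K)
        rw [e1] at this
        have h3 : 2 ^ (k - K) ≤ 2 ^ 6 := Nat.pow_le_pow_right (by norm_num) (by omega)
        omega
      have hm42 : m ≤ 42 := by omega
      obtain ⟨i, hi1, hi2⟩ := small_time m hm42 hm
      have hki : k ≤ i := Nat.find_min' hk hi2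
      exact small_check hm42 hm hT (by omega : K' ≤ 80) g2 g1 (j := k - K) (by omega) e1
    have htrap : Trap (T^[k - 7] m) (f^[k - 7 - K] (f^[K + 1] c)) := by
      have := shadow (T_iter_pos hm K) hK1 (k - 7 - K)
      rw [← Function.iterate_add_apply T, show k - 7 - K + K = k - 7 by omega] at this
      exact this
    have hmod : T^[k - 7] m % 3 ≠ 0 := by
      intro h3
      have h4 : T^[k - 7 - K'] (T^[K'] m) % 3 = 0 := by
        rw [← Function.iterate_add_apply, show k - 7 - K' + K' = k - 7 by omega]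
        exact h3
      obtain ⟨-, -, h5⟩ := mod3_back _ h4
      obtain ⟨h6, -, -⟩ := mod3_back K' h5
      omega
    have := trap_fate (by omega : 7 ≤ k) hk1 hmin (Or.inl hmod) htrap
    exact attracts_of_iter (K := K + 1) (attracts_of_iter (K := k - 7 - K) this)
  · push Not at hK
    have hall : ∀ k, Below (cst m) (T^[k] m) (f^[k + 1] c) := fun k =>
      (follow hm hT hx hts k).resolve_right (hK k)
    have h3 := all_below hm hT hall k
    rw [hk1] at h3
    exact attracts_of_iter (K := k + 1) (conv_below h3)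

/-- convergence to one of the known cycles along a followed orbit -/
theorem reach_of_close {a : ℝ} (ha : a ∈ Set.Icc (1.19 : ℝ) 1.196) (hga : g a = a) {n : ℕ} (hn : 1 ≤ n)
    {x : ℝ} (hx : ∀ k, |f^[k] x - (T^[k] n : ℕ)| ≤ 8 / (7 * (2 * ((T^[k] n : ℕ) : ℝ) + 1)))
    (h : Attracts 1 x ∨ Attracts a x) : ∃ k, T^[k] n = 1 := by
  have key : ∀ (y : ℝ) (j : ℕ), 1 ≤ y → y ≤ 1.2 → Tendsto (fun k : ℕ => f^[k * 2 + j] x) atTop (𝓝 y) →
      ∃ k, T^[k] n = 1 := by
    intro y j hy1 hy2 hj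
    rw [Metric.tendsto_atTop] at hj
    obtain ⟨N, hN⟩ := hj (1 / 10) (by norm_num)
    have h1 := hN N le_rfl
    rw [Real.dist_eq, abs_lt] at h1
    have h2 := hx (N * 2 + j)
    have h3 := T_iter_pos hn (N * 2 + j)
    refine ⟨N * 2 + j, ?_⟩
    by_contra hne
    have h4 : 2 ≤ T^[N * 2 + j] n := by omega
    have h5 : (2 : ℝ) ≤ ((T^[N * 2 + j] n : ℕ) : ℝ) := by exact_mod_cast h4
    have h6 : 8 / (7 * (2 * ((T^[N * 2 + j] n : ℕ) : ℝ) + 1)) ≤ 8 / 35 := by
      rw [div_le_div_iff₀ (by positivity) (by norm_num)]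
      linarith
    rw [abs_le] at h2
    linarith [h1.1, h1.2, h2.1, h2.2]
  rcases h with ⟨j, hj⟩ | ⟨j, hj⟩
  · rw [minPer_one] at hj
    exact key 1 j le_rfl (by norm_num) hj
  · rw [minPer_a ha hga] at hj
    exact key a j (by linarith [ha.1]) (by linarith [ha.2]) hj

/-- the fate of the critical point below an even integer `2 m` with `T^k m ≤ 5 m` for all `k` -/
theorem even_fate {a : ℝ} (ha : a ∈ Set.Icc (1.19 : ℝ) 1.196) (hga : g a = a) {m : ℕ} (hm : 1 ≤ m)
    (hT : ∀ k, T^[k] m ≤ 5 * m) {c : ℝ} (hc : |c - (2 * m : ℕ)| < 1 / 2) (h : deriv f c = 0) :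
    (Attracts 1 c ↔ ∃ k, T^[k] m = 1) ∧ ¬ Attracts a c := by
  obtain ⟨hx, hz⟩ := crit_zone hm hc h
  have key : (Attracts 1 c ∨ Attracts a c) → ∃ k, T^[k] m = 1 := by
    intro h1
    obtain ⟨k, hk⟩ := reach_of_close ha hga (n := 2 * m) (by omega) (fun k => tube hm hT hx hz k) h1
    rcases k with _ | k
    · have : 2 * m = 1 := hk
      omega
    · rw [Function.iterate_succ_apply, T_even] at hk
      exact ⟨k, hk⟩
  refine ⟨⟨fun h1 => key (Or.inl h1), fun h1 => even_reach hm hT hc h h1⟩, fun h1 => ?_⟩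
  exact not_both ha hga (even_reach hm hT hc h (key (Or.inr h1))) h1

end Pool.Agent.Helper29K9.Cham
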