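import Pool.Agent.Helper29K9.Cham.Fol

/-!
The `3x+1` map has no cycles of period at most nine other than `{1, 2}`.
-/

set_option autoImplicit false

namespace Pool.Agent.Helper29K9.Cham

open Pool.Agent.H934R2.Ch

theorem T_affine (n : ℕ) (i : ℕ) : ∃ o b : ℕ, o ≤ i ∧ 2 ^ i * T^[i] n = 3 ^ o * n + b ∧
    2 ^ o * (b + 2 ^ i) ≤ 2 ^ i * 3 ^ o := by
  induction i with
  | zero => exact ⟨0, 0, le_rfl, by simp, by simp⟩
  | succ i ih =>
    obtain ⟨o, b, h0, h1, h2⟩ := ih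
    rw [Function.iterate_succ_apply']
    rcases Nat.even_or_odd' (T^[i] n) with ⟨k, hk | hk⟩
    · refine ⟨o, b, by omega, ?_, ?_⟩
      · rw [hk, T_even]
        rw [hk] at h1
        rw [← h1]; ring
      · have h3 : 2 ^ o ≤ 3 ^ o := Nat.pow_le_pow_left (by norm_num) o
        have h4 : 2 ^ i * 2 ^ o ≤ 2 ^ i * 3 ^ o := Nat.mul_le_mul_left _ h3
        have e1 : 2 ^ o * (b + 2 ^ (i + 1)) = 2 ^ o * (b + 2 ^ i) + 2 ^ i * 2 ^ o := by ring
        have e2 : 2 ^ (i + 1) * 3 ^ o = 2 ^ i * 3 ^ o + 2 ^ i * 3 ^ o := by ring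
        rw [e1, e2]
        omega
    · refine ⟨o + 1, 3 * b + 2 ^ i, by omega, ?_, ?_⟩
      · rw [hk, T_odd]
        rw [hk] at h1
        have e1 : 2 ^ (i + 1) * (3 * k + 2) = 3 * (2 ^ i * (2 * k + 1)) + 2 ^ i := by ring
        rw [e1, h1]; ring
      · have e1 : 2 ^ (o + 1) * (3 * b + 2 ^ i + 2 ^ (i + 1)) = 6 * (2 ^ o * (b + 2 ^ i)) := by ring
        have e2 : 2 ^ (i + 1) * 3 ^ (o + 1) = 6 * (2 ^ i * 3 ^ o) := by ring
        rw [e1, e2]
        omega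

theorem small_no_cycle : ∀ n ∈ Finset.range 131, 3 ≤ n → ∀ p ∈ Finset.range 10, 1 ≤ p → T^[p] n ≠ n := by
  decide +kernel

theorem no_cycle {n p : ℕ} (hn : 3 ≤ n) (hp : 1 ≤ p) (hp9 : p ≤ 9) : T^[p] n ≠ n := by
  intro h
  by_cases hn2 : n < 131
  · exact small_no_cycle n (Finset.mem_range.2 hn2) hn p (Finset.mem_range.2 (by omega)) hp h
  · obtain ⟨o, b, h0, h1, h2⟩ := T_affine n p
    rw [h] at h1
    interval_cases p <;> interval_cases o <;> omega

theorem reach_241 : ∀ n ∈ Finset.range 243, 1 ≤ n → ∃ k ∈ Finset.range 130, T^[k] n = 1 := by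
  decide +kernel

theorem cyc_small {n p : ℕ} (hn : 3 ≤ n) (hn2 : n ≤ 242) (hp : 1 ≤ p) : T^[p] n ≠ n := by
  intro h
  obtain ⟨k, -, hk⟩ := reach_241 n (Finset.mem_range.2 (by omega)) (by omega)
  have h3 : T^[p * k] n = n := by
    rw [Function.iterate_mul]; exact Function.iterate_fixed h k
  have hkp : k ≤ p * k := Nat.le_mul_of_pos_left k hp
  have := T_after_one hk hkp
  rw [h3] at this
  omega

end Pool.Agent.Helper29K9.Cham
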