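import Pool.Agent.Helper29K9.Cham.Nine2
import Pool.Agent.Helper29K9.Cham.Tcyc

/-!
Chamberland's map: the exceptional attracting cycles.
-/

set_option autoImplicit false

namespace Pool.Agent.Helper29K9.Cham

open Pool.Agent.H934R2.Ch Pool.Agent.Y296.CB Filter Topology

/-- the first run of five odd terms, up to its end the orbit is just below, and the end is before `p` -/
def Run5 (n p : ℕ) (y : ℝ) (s : ℕ) : Prop :=
  s + 6 < p ∧ T^[s] n % 2 = 0 ∧ (∀ j < 5, T^[s + 1 + j] n % 2 = 1) ∧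
    (∀ j, 1 ≤ j → j < s + 6 → f^[j] y < T^[j] n ∧ ts (T^[j] n) (T^[j] n - f^[j] y) ≤ 2.8) ∧
    f^[s + 6] y < T^[s + 6] n ∧ ts (T^[s + 6] n) (T^[s + 6] n - f^[s + 6] y) ≤ 10.86

theorem ts_start {n : ℕ} {y : ℝ} (hyn : y < n) (h : (n : ℝ) - y < 1 / (4 * n + 2)) :
    ts n (n - y) ≤ 2.8 := by
  unfold ts
  have h1 := pi_sq_lt
  rw [lt_div_iff₀ (by positivity)] at h
  have h2 : 0 ≤ (2 * (n : ℝ) + 1) * (n - y) := mul_nonneg (by positivity) (by linarith)
  nlinarith

theorem run5_of_exc {n p : ℕ} (hn2 : n % 2 = 0) (hn : 30 ≤ n) {y : ℝ} (hyn : y < n)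
    (hy2 : (n : ℝ) - y < 1 / (4 * n + 2)) (hp : 1 ≤ p) (hper : f^[p] y = y) (hD : ∀ i, f^[i] y ∉ D) :
    ∃ s, Run5 n p y s := by
  have hnR : (30 : ℝ) ≤ n := by exact_mod_cast hn
  have h4 : 1 / (4 * (n : ℝ) + 2) ≤ 0.01 := by
    rw [div_le_iff₀ (by positivity)]; nlinarith
  have hts := ts_start hyn hy2
  -- if the orbit follows the orbit of `n` closely until the time `p`, we get a contradiction
  have key : (∀ i, i < p → Z (T^[i] n) (f^[i] y)) → T^[p] n ≠ n := by
    intro h hT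
    have hZ : ∀ i, Z (T^[i] n) (f^[i] y) := by
      intro i
      have e1 : T^[i] n = T^[i % p] n := by
        conv_lhs => rw [← Nat.mod_add_div i p, Function.iterate_add_apply, Function.iterate_mul,
          Function.iterate_fixed hT]
      have e2 : f^[i] y = f^[i % p] y := by
        conv_lhs => rw [← Nat.mod_add_div i p, Function.iterate_add_apply, Function.iterate_mul,
          Function.iterate_fixed hper]
      rw [e1, e2]
      exact h _ (Nat.mod_lt _ hp)
    have := periodic_Z (by omega) hp hT hper hZ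
    linarith
  have near : ∀ {E : ℝ}, E ≤ 0.9 → (T^[p] n : ℝ) - y ≤ E → y < T^[p] n → T^[p] n = n := by
    intro E hE h1 h2
    have h7 : ((T^[p] n : ℕ) : ℝ) < n + 1 := by linarith
    have h8 : (n : ℝ) < (T^[p] n : ℕ) + 1 := by linarith
    have h9 : T^[p] n < n + 1 := by exact_mod_cast h7
    have h10 : n < T^[p] n + 1 := by exact_mod_cast h8
    omega
  have hZ0 : ∀ {m : ℕ}, (∀ j, 1 ≤ j → j < m → f^[j] y < T^[j] n ∧ ts (T^[j] n) (T^[j] n - f^[j] y) ≤ 2.8) →
      ∀ i, i < m → Z (T^[i] n) (f^[i] y) := by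
    intro m h i hi
    rcases Nat.eq_zero_or_pos i with rfl | hi0
    · exact ⟨hyn.le, hts⟩
    · obtain ⟨a1, a2⟩ := h i hi0 hi
      exact ⟨a1.le, a2⟩
  rcases St_or_Five hn2 (by omega) hyn.le hts hD p hp with h | h
  · exfalso
    obtain ⟨h1, -⟩ := h
    refine key (hZ0 (m := p) fun j hj1 hj2 => h1 j hj1 hj2.le) ?_
    obtain ⟨a1, a2⟩ := h1 p hp le_rfl
    have a3 := Z_dist (T_iter_pos (by omega) p) ⟨a1.le, a2⟩
    rw [hper] at a1 a3
    exact near (by norm_num) a3 a1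
  · obtain ⟨s, h1, h2, h3, h4', h5, h6⟩ := h
    rcases h1.lt_or_eq with h1 | h1
    · exact ⟨s, h1, h2, h3, h4', h5, h6⟩
    · exfalso
      have h242 : 242 ≤ T^[s + 6] n := by
        have := (U_five (a := T^[s + 1] n) (by
          intro j hj
          rw [← Function.iterate_add_apply, add_comm j]
          exact h3 j hj)).2
        rw [← Function.iterate_add_apply] at this
        have e : 5 + (s + 1) = s + 6 := by ring
        rw [e] at this
        exact this
      obtain ⟨b1, b2, -⟩ := after_run h242 h5 h6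
      rw [h1] at h4' h5 h6 b1 b2
      refine key (hZ0 h4') ?_
      rw [hper] at h5 b1
      have b3 := (abs_le.1 (b1.trans b2)).1
      exact near (E := 0.01) (by norm_num) (by linarith) h5

theorem run5_terms {n p s : ℕ} {y : ℝ} (h : Run5 n p y s) :
    32 * T^[s + 6] n = 243 * T^[s + 1] n + 211 ∧ 31 ≤ T^[s + 1] n ∧ T^[s] n = 2 * T^[s + 1] n := by
  obtain ⟨h1, h2, h3, -⟩ := h
  have o : ∀ j < 5, T^[j] (T^[s + 1] n) % 2 = 1 := by
    intro j hj
    rw [← Function.iterate_add_apply, add_comm j]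
    exact h3 j hj
  obtain ⟨-, -, -, -, r5⟩ := run_terms 5 o (by omega)
  have step : ∀ j < 5, T^[j + 1] (T^[s + 1] n) = (3 * T^[j] (T^[s + 1] n) + 1) / 2 := by
    intro j hj
    rw [Function.iterate_succ_apply', T_of_odd (o j hj)]
  have e : T^[s + 6] n = T^[5] (T^[s + 1] n) := by
    rw [← Function.iterate_add_apply]
    congr 1
    ring
  rw [e]
  have hT0 : T^[0] (T^[s + 1] n) = T^[s + 1] n := rfl
  have s0 := step 0 (by omega)
  have s1 : T^[2] (T^[s + 1] n) = (3 * T^[1] (T^[s + 1] n) + 1) / 2 := step 1 (by omega)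
  have s2 : T^[3] (T^[s + 1] n) = (3 * T^[2] (T^[s + 1] n) + 1) / 2 := step 2 (by omega)
  have s3 : T^[4] (T^[s + 1] n) = (3 * T^[3] (T^[s + 1] n) + 1) / 2 := step 3 (by omega)
  have s4 : T^[5] (T^[s + 1] n) = (3 * T^[4] (T^[s + 1] n) + 1) / 2 := step 4 (by omega)
  have o0 := o 0 (by omega)
  have o1 := o 1 (by omega)
  have o2 := o 2 (by omega)
  have o3 := o 3 (by omega)
  have o4 := o 4 (by omega)
  have hs : T^[s + 1] n = T (T^[s] n) := Function.iterate_succ_apply' _ _ _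
  have hs2 : T (T^[s] n) = T^[s] n / 2 := T_of_even h2
  rw [hT0] at s0 o0
  have s0' : T^[1] (T^[s + 1] n) = (3 * T^[s + 1] n + 1) / 2 := s0
  refine ⟨?_, r5 (by omega), ?_⟩
  · omega
  · omega

theorem nine {n p : ℕ} (hn2 : n % 2 = 0) (hn : 30 ≤ n) {y : ℝ} (hyn : y < n)
    (hy2 : (n : ℝ) - y < 1 / (4 * n + 2)) (hp : 1 ≤ p) (hper : f^[p] y = y) (hD : ∀ i, f^[i] y ∉ D) :
    9 < p := by
  by_contra hp9
  push Not at hp9
  have hT := no_cycle (n := n) (by omega) hp hp9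
  obtain ⟨s, hs⟩ := run5_of_exc hn2 hn hyn hy2 hp hper hD
  obtain ⟨t1, t2, t3⟩ := run5_terms hs
  obtain ⟨h1, h2, h3, h4, h5, h6⟩ := hs
  have h242 : 242 ≤ T^[s + 6] n := by omega
  have hf7 : f^[s + 7] y = f (f^[s + 6] y) := Function.iterate_succ_apply' _ _ _
  have hf8 : f^[s + 8] y = f (f (f^[s + 6] y)) := by
    rw [← hf7]; exact Function.iterate_succ_apply' _ _ _
  have hf9 : f^[s + 9] y = f (f (f (f^[s + 6] y))) := by
    rw [← hf8]; exact Function.iterate_succ_apply' _ _ _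
  have hT7 : T^[s + 7] n = T (T^[s + 6] n) := Function.iterate_succ_apply' _ _ _
  have hT8 : T^[s + 8] n = T (T (T^[s + 6] n)) := by
    rw [← hT7]; exact Function.iterate_succ_apply' _ _ _
  have hs1 : T^[s + 1] n = T (T^[s] n) := Function.iterate_succ_apply' _ _ _
  have hcase : p = s + 7 ∨ p = s + 8 ∨ p = s + 9 := by omega
  rcases hcase with rfl | rfl | rfl
  · apply hT
    rw [hT7]
    exact case_one h242 hn h5 h6 (by rw [← hf7]; exact hper) hyn hy2
  · apply hT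
    rw [hT8]
    refine case_two h242 hn ?_ h5 h6 (by rw [← hf8]; exact hper) hyn hy2
    have hs' : s = 0 ∨ s = 1 := by omega
    rcases hs' with rfl | rfl
    · have t3' : n = 2 * T^[0 + 1] n := t3
      omega
    · have t3' : T n = 2 * T^[1 + 1] n := t3
      have hs2 : T n = n / 2 := T_of_even hn2
      omega
  · have hs' : s = 0 := by omega
    subst hs'
    have t3' : n = 2 * T^[0 + 1] n := t3
    obtain ⟨a, ha⟩ : ∃ a, a = T^[0 + 1] n := ⟨_, rfl⟩
    rw [← ha] at t1 t2 t3'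
    rw [t3'] at hyn hy2
    exact case_three t1 t2 h5 h6 (by rw [← hf9]; exact hper) hyn hy2

theorem above_241 {n p : ℕ} (hn2 : n % 2 = 0) (hn : 30 ≤ n) {y : ℝ} (hyn : y < n)
    (hy2 : (n : ℝ) - y < 1 / (4 * n + 2)) (hp : 1 ≤ p) (hper : f^[p] y = y) (hD : ∀ i, f^[i] y ∉ D) :
    ∃ j, 241 < f^[j] y := by
  obtain ⟨s, hs⟩ := run5_of_exc hn2 hn hyn hy2 hp hper hD
  obtain ⟨t1, t2, t3⟩ := run5_terms hs
  obtain ⟨h1, h2, h3, h4, h5, h6⟩ := hs
  have h242 : 242 ≤ T^[s + 6] n := by omega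
  obtain ⟨b1, b2, -⟩ := after_run h242 h5 h6
  have b3 := (abs_le.1 (b1.trans b2)).1
  have h242' : (242 : ℝ) ≤ T^[s + 6] n := by exact_mod_cast h242
  exact ⟨s + 6, by linarith⟩

end Pool.Agent.Helper29K9.Cham
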