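import Pool.Agent.Helper29K9.Cham.Run

/-!
Chamberland's map: an orbit which follows an orbit of the `3x+1` map from below, and which never enters
the trap intervals, cannot leave before five consecutive odd terms have occurred (main induction).
-/

set_option autoImplicit false

namespace Pool.Agent.Helper29K9.Cham

open Pool.Agent.H934R2.Ch Pool.Agent.Y296.CB Filter Topology

/-- bound for the scaled deviation after `j` odd steps from an integer `a` -/
noncomputable def U (a : ℕ) : ℕ → ℝ
  | 0 => G0 a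
  | j + 1 => (9 / 4 + 3 / 4 / (2 * (T^[j] a : ℝ) + 1)) * (U a j * (1 + U a j / 3))

theorem G0_nonneg (a : ℕ) : 0 ≤ G0 a := by unfold G0; positivity

theorem U_nonneg (a : ℕ) (j : ℕ) : 0 ≤ U a j := by
  induction j with
  | zero => exact G0_nonneg a
  | succ j ih =>
    unfold U
    positivity

theorem U_succ_le {a j : ℕ} {M c c' : ℝ} (hM0 : 0 < M) (hM : M ≤ 2 * (T^[j] a : ℝ) + 1) (hc : U a j ≤ c)
    (h : (9 / 4 + 3 / 4 / M) * (c * (1 + c / 3)) ≤ c') : U a (j + 1) ≤ c' := by
  refine le_trans ?_ h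
  have h0 := U_nonneg a j
  rw [U]
  apply mul_le_mul
  · have : 3 / 4 / (2 * (T^[j] a : ℝ) + 1) ≤ 3 / 4 / M := div_le_div_of_nonneg_left (by norm_num) hM0 hM
    linarith
  · apply mul_le_mul hc (by linarith) (by positivity) (h0.trans hc)
  · positivity
  · positivity

theorem U_small {a ℓ : ℕ} (hℓ : ℓ ≤ 4) (ha : 1 ≤ a) (o : ∀ j < ℓ, T^[j] a % 2 = 1) : U a ℓ ≤ 2.8 := by
  obtain ⟨-, r2, r3, r4, -⟩ := run_terms ℓ o (by omega)
  have step : ∀ j < ℓ, T^[j + 1] a = (3 * T^[j] a + 1) / 2 := by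
    intro j hj
    rw [Function.iterate_succ_apply', T_of_odd (o j hj)]
  have cast_le : ∀ {j M : ℕ}, M ≤ T^[j] a → (2 * (M : ℝ) + 1) ≤ 2 * (T^[j] a : ℝ) + 1 := by
    intro j M h
    have : (M : ℝ) ≤ (T^[j] a : ℝ) := by exact_mod_cast h
    linarith
  have hT0 : T^[0] a = a := rfl
  interval_cases ℓ
  · have : U a 0 ≤ 0.0765 := G0_le (M := 1) (by exact_mod_cast ha) (by norm_num) (by norm_num)
    linarith
  · have c0 : U a 0 ≤ 0.0765 := G0_le (M := 1) (by exact_mod_cast ha) (by norm_num) (by norm_num)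
    have c1 : U a 1 ≤ 0.1962 := U_succ_le (M := 3) (by norm_num)
      (by have := cast_le (j := 0) (M := 1) (by rw [hT0]; exact ha); norm_num at this ⊢; linarith) c0 (by norm_num)
    linarith
  · have ha3 := r2 (by omega)
    have s0 := step 0 (by omega)
    have c0 : U a 0 ≤ 0.0687 := G0_le (M := 3) (by exact_mod_cast ha3) (by norm_num) (by norm_num)
    have c1 : U a 1 ≤ 0.1657 := U_succ_le (M := 7) (by norm_num)
      (by have := cast_le (j := 0) (M := 3) (by rw [hT0]; exact ha3); norm_num at this ⊢; linarith) c0 (by norm_num)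
    have c2 : U a 2 ≤ 0.4055 := U_succ_le (M := 11) (by norm_num)
      (by have := cast_le (j := 1) (M := 5) (by rw [s0, hT0]; omega); norm_num at this ⊢; linarith) c1 (by norm_num)
    linarith
  · have ha3 := r3 (by omega)
    have s0 := step 0 (by omega)
    have s1 : T^[2] a = (3 * T^[1] a + 1) / 2 := step 1 (by omega)
    have c0 : U a 0 ≤ 0.0659 := G0_le (M := 7) (by exact_mod_cast ha3) (by norm_num) (by norm_num)
    have c1 : U a 1 ≤ 0.155 := U_succ_le (M := 15) (by norm_num)
      (by have := cast_le (j := 0) (M := 7) (by rw [hT0]; exact ha3); norm_num at this ⊢; linarith) c0 (by norm_num)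
    have h1 : 11 ≤ T^[1] a := by rw [s0, hT0]; omega
    have c2 : U a 2 ≤ 0.3722 := U_succ_le (M := 23) (by norm_num)
      (by have := cast_le h1; norm_num at this ⊢; linarith) c1 (by norm_num)
    have h2 : 17 ≤ T^[2] a := by rw [s1]; omega
    have c3 : U a 3 ≤ 0.951 := U_succ_le (M := 35) (by norm_num)
      (by have := cast_le h2; norm_num at this ⊢; linarith) c2 (by norm_num)
    linarith
  · have ha3 := r4 (by omega)
    have s0 := step 0 (by omega)
    have s1 : T^[2] a = (3 * T^[1] a + 1) / 2 := step 1 (by omega)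
    have s2 : T^[3] a = (3 * T^[2] a + 1) / 2 := step 2 (by omega)
    have c0 : U a 0 ≤ 0.06475 := G0_le (M := 15) (by exact_mod_cast ha3) (by norm_num) (by norm_num)
    have c1 : U a 1 ≤ 0.1505 := U_succ_le (M := 31) (by norm_num)
      (by have := cast_le (j := 0) (M := 15) (by rw [hT0]; exact ha3); norm_num at this ⊢; linarith) c0 (by norm_num)
    have h1 : 23 ≤ T^[1] a := by rw [s0, hT0]; omega
    have c2 : U a 2 ≤ 0.3583 := U_succ_le (M := 47) (by norm_num)
      (by have := cast_le h1; norm_num at this ⊢; linarith) c1 (by norm_num)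
    have h2 : 35 ≤ T^[2] a := by rw [s1]; omega
    have c3 : U a 3 ≤ 0.907 := U_succ_le (M := 71) (by norm_num)
      (by have := cast_le h2; norm_num at this ⊢; linarith) c2 (by norm_num)
    have h3 : 53 ≤ T^[3] a := by rw [s2]; omega
    have c4 : U a 4 ≤ 2.68 := U_succ_le (M := 107) (by norm_num)
      (by have := cast_le h3; norm_num at this ⊢; linarith) c3 (by norm_num)
    linarith

theorem U_five {a : ℕ} (o : ∀ j < 5, T^[j] a % 2 = 1) : U a 5 ≤ 10.86 ∧ 242 ≤ T^[5] a := by
  obtain ⟨-, -, -, -, r5⟩ := run_terms 5 o (by omega)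
  have step : ∀ j < 5, T^[j + 1] a = (3 * T^[j] a + 1) / 2 := by
    intro j hj
    rw [Function.iterate_succ_apply', T_of_odd (o j hj)]
  have cast_le : ∀ {j M : ℕ}, M ≤ T^[j] a → (2 * (M : ℝ) + 1) ≤ 2 * (T^[j] a : ℝ) + 1 := by
    intro j M h
    have : (M : ℝ) ≤ (T^[j] a : ℝ) := by exact_mod_cast h
    linarith
  have hT0 : T^[0] a = a := rfl
  have ha3 := r5 (by omega)
  have s0 := step 0 (by omega)
  have s1 : T^[2] a = (3 * T^[1] a + 1) / 2 := step 1 (by omega)
  have s2 : T^[3] a = (3 * T^[2] a + 1) / 2 := step 2 (by omega)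
  have s3 : T^[4] a = (3 * T^[3] a + 1) / 2 := step 3 (by omega)
  have s4 : T^[5] a = (3 * T^[4] a + 1) / 2 := step 4 (by omega)
  have c0 : U a 0 ≤ 0.06422 := G0_le (M := 31) (by exact_mod_cast ha3) (by norm_num) (by norm_num)
  have c1 : U a 1 ≤ 0.1484 := U_succ_le (M := 63) (by norm_num)
    (by have := cast_le (j := 0) (M := 31) (by rw [hT0]; exact ha3); norm_num at this ⊢; linarith) c0 (by norm_num)
  have h1 : 47 ≤ T^[1] a := by rw [s0, hT0]; omega
  have c2 : U a 2 ≤ 0.3517 := U_succ_le (M := 95) (by norm_num)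
    (by have := cast_le h1; norm_num at this ⊢; linarith) c1 (by norm_num)
  have h2 : 71 ≤ T^[2] a := by rw [s1]; omega
  have c3 : U a 3 ≤ 0.8862 := U_succ_le (M := 143) (by norm_num)
    (by have := cast_le h2; norm_num at this ⊢; linarith) c2 (by norm_num)
  have h3 : 107 ≤ T^[3] a := by rw [s2]; omega
  have c4 : U a 4 ≤ 2.5873 := U_succ_le (M := 215) (by norm_num)
    (by have := cast_le h3; norm_num at this ⊢; linarith) c3 (by norm_num)
  have h4 : 161 ≤ T^[4] a := by rw [s3]; omega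
  have c5 : U a 5 ≤ 10.86 := U_succ_le (M := 323) (by norm_num)
    (by have := cast_le h4; norm_num at this ⊢; linarith) c4 (by norm_num)
  exact ⟨c5, by rw [s4]; omega⟩

/-- the state at time `i`: so far the orbit is just below, and at most four odd terms since the last
even one -/
def St (n : ℕ) (y : ℝ) (i : ℕ) : Prop :=
  (∀ j, 1 ≤ j → j ≤ i → f^[j] y < T^[j] n ∧ ts (T^[j] n) (T^[j] n - f^[j] y) ≤ 2.8) ∧
  ∃ s ℓ, i = s + 1 + ℓ ∧ ℓ ≤ 4 ∧ T^[s] n % 2 = 0 ∧ (∀ j < ℓ, T^[s + 1 + j] n % 2 = 1) ∧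
    ts (T^[i] n) (T^[i] n - f^[i] y) ≤ U (T^[s + 1] n) ℓ

/-- a run of five odd terms has occurred, and up to its end the orbit is just below -/
def Five (n : ℕ) (y : ℝ) (i : ℕ) : Prop :=
  ∃ s, s + 6 ≤ i ∧ T^[s] n % 2 = 0 ∧ (∀ j < 5, T^[s + 1 + j] n % 2 = 1) ∧
    (∀ j, 1 ≤ j → j < s + 6 → f^[j] y < T^[j] n ∧ ts (T^[j] n) (T^[j] n - f^[j] y) ≤ 2.8) ∧
    f^[s + 6] y < T^[s + 6] n ∧ ts (T^[s + 6] n) (T^[s + 6] n - f^[s + 6] y) ≤ 10.86

theorem St_or_Five {n : ℕ} (hn2 : n % 2 = 0) (hn : 2 ≤ n) {y : ℝ} (hy : y ≤ n)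
    (ht : ts n (n - y) ≤ 2.8) (hD : ∀ i, f^[i] y ∉ D) (i : ℕ) (hi : 1 ≤ i) : St n y i ∨ Five n y i := by
  have hpos : ∀ i, 1 ≤ T^[i] n := T_iter_pos (by omega)
  induction i with
  | zero => omega
  | succ i ih =>
    rcases Nat.eq_zero_or_pos i with rfl | hi
    · left
      obtain ⟨h1, h2⟩ := even_in hn2 (by omega) hy ht (hD 1)
      have e : (0 : ℕ) + 1 = 1 := rfl
      have h3 : ts (T^[1] n) (T^[1] n - f^[1] y) ≤ U (T^[1] n) 0 := h2
      refine ⟨fun j hj1 hj2 => ?_, 0, 0, rfl, by omega, hn2, by intro j hj; omega, h3⟩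
      obtain rfl : j = 1 := by omega
      exact ⟨h1, h3.trans (U_small (by omega) (hpos 1) (by intro j hj; omega))⟩
    · rcases ih hi with h | h
      · obtain ⟨h1, s, ℓ, h2, h3, h4, h5, h6⟩ := h
        obtain ⟨b1, b2⟩ := h1 i hi le_rfl
        rcases Nat.mod_two_eq_zero_or_one (T^[i] n) with he | ho
        · left
          obtain ⟨c1, c2⟩ := even_in he (hpos i) b1.le b2 (by
            rw [← Function.iterate_succ_apply' f]; exact hD (i + 1))
          rw [← Function.iterate_succ_apply' f, ← Function.iterate_succ_apply' T] at c1 c2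
          have c3 : ts (T^[i + 1] n) (T^[i + 1] n - f^[i + 1] y) ≤ U (T^[i + 1] n) 0 := c2
          refine ⟨fun j hj1 hj2 => ?_, i, 0, rfl, by omega, he, by intro j hj; omega, c3⟩
          rcases Nat.lt_or_ge j (i + 1) with hj | hj
          · exact h1 j hj1 (by omega)
          · obtain rfl : j = i + 1 := by omega
            exact ⟨c1, c3.trans (U_small (by omega) (hpos _) (by intro j hj; omega))⟩
        · have hTi : T^[ℓ] (T^[s + 1] n) = T^[i] n := by
            rw [← Function.iterate_add_apply, h2]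
            congr 1
            omega
          obtain ⟨c1, c2⟩ := odd_t ho (H := 2 * (T^[i] n : ℝ) + 1) (τ := U (T^[s + 1] n) ℓ)
            (τ' := U (T^[s + 1] n) (ℓ + 1)) b1 h6 (by positivity) le_rfl (by rw [U, hTi])
          rw [← Function.iterate_succ_apply' f, ← Function.iterate_succ_apply' T] at c1 c2
          have h5' : ∀ j < ℓ + 1, T^[s + 1 + j] n % 2 = 1 := by
            intro j hj
            rcases Nat.lt_or_ge j ℓ with hj' | hj'
            · exact h5 j hj'
            · obtain rfl : j = ℓ := by omega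
              rw [← h2]; exact ho
          have h5'' : ∀ j < ℓ + 1, T^[j] (T^[s + 1] n) % 2 = 1 := by
            intro j hj
            rw [← Function.iterate_add_apply, add_comm j]
            exact h5' j hj
          rcases Nat.lt_or_ge ℓ 4 with hℓ | hℓ
          · left
            refine ⟨fun j hj1 hj2 => ?_, s, ℓ + 1, by omega, by omega, h4, h5', c2⟩
            rcases Nat.lt_or_ge j (i + 1) with hj | hj
            · exact h1 j hj1 (by omega)
            · obtain rfl : j = i + 1 := by omega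
              exact ⟨c1, c2.trans (U_small (by omega) (hpos _) h5'')⟩
          · right
            obtain rfl : ℓ = 4 := by omega
            subst h2
            refine ⟨s, by omega, h4, h5', fun j hj1 hj2 => h1 j hj1 (by omega), c1, ?_⟩
            exact c2.trans (U_five h5'').1
      · right
        obtain ⟨s, h1, h2⟩ := h
        exact ⟨s, by omega, h2⟩

end Pool.Agent.Helper29K9.Cham
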