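import Pool.Agent.Helper29K9.Cham.Enc
import Pool.Agent.Y296.CB.Main

/-!
Chamberland's map: the last seven steps of an orbit in the trap intervals which reaches `1`.
-/

set_option autoImplicit false

namespace Pool.Agent.Helper29K9.Cham

open Pool.Agent.H934R2.Ch Pool.Agent.Y296.CB Filter Topology

theorem b5 : b 5 = 5 / 66 := by unfold b; norm_num

/-- from `20` down to `1` -/
theorem down20 {x : ℝ} (h1 : 20 ≤ x) (h2 : x ≤ 20 + 0.01695) : 1 ≤ f^[6] x ∧ f^[6] x ≤ 1.02 := by
  obtain ⟨a1, a2⟩ := up_even 10 (E := 0.01695) (E' := 0.0231) (by norm_num) (x := x)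
    (by push_cast; linarith) (by push_cast; linarith)
  obtain ⟨b1, b2⟩ := up_even 5 (E := 0.0231) (E' := 0.0255) (by norm_num) (x := f x)
    (by push_cast at *; linarith) (by push_cast at *; linarith)
  push_cast at b1 b2
  have c1 := (trap (n := 5) (by norm_num) (x := f (f x)) ⟨by push_cast; linarith, by
    rw [b5]; push_cast; linarith⟩).1
  have e5 : T 5 = 8 := by decide
  rw [e5] at c1
  push_cast at c1
  have c2 := up_odd 2 (E := 0.0255) (E' := 0.0294) (by
    intro d h0 h3
    push_cast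
    nlinarith [sq_nonneg d, mul_nonneg h0 (sub_nonneg.2 h3), mul_nonneg (mul_nonneg h0 h0) (sub_nonneg.2 h3),
      mul_nonneg (mul_nonneg (mul_nonneg h0 h0) h0) (sub_nonneg.2 h3)]) (x := f (f x))
    (by push_cast; linarith) (by push_cast; linarith)
  push_cast at c2
  obtain ⟨d1, d2⟩ := up_even 4 (E := 0.0294) (E' := 0.0329) (by norm_num) (x := f (f (f x)))
    (by push_cast; linarith) (by push_cast; linarith)
  obtain ⟨e1, e2⟩ := up_even 2 (E := 0.0329) (E' := 0.0286) (by norm_num) (x := f (f (f (f x))))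
    (by push_cast at *; linarith) (by push_cast at *; linarith)
  obtain ⟨f1, f2⟩ := up_even 1 (E := 0.0286) (E' := 0.0195) (by norm_num) (x := f (f (f (f (f x)))))
    (by push_cast at *; linarith) (by push_cast at *; linarith)
  push_cast at f1 f2
  exact ⟨f1, by simp only [Function.iterate_succ, Function.iterate_zero, Function.comp, id]; linarith⟩

/-- from `13` down to `1` -/
theorem down13 {x : ℝ} (h : Trap 13 x) : 1 ≤ f^[7] x ∧ f^[7] x ≤ 1.02 := by
  have hb : b 13 = 5 / 162 := by unfold b; norm_num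
  have h1 := (trap (n := 13) (by norm_num) h).1
  have e : T 13 = 20 := by decide
  rw [e] at h1
  obtain ⟨h2, h3⟩ := h
  rw [hb] at h3
  push_cast at h1 h2 h3
  have c2 := up_odd 6 (E := 5 / 162) (E' := 0.01695) (by
    intro d h0 h3
    push_cast
    have h4 : d ≤ 0.031 := by linarith
    have h5 : d ^ 2 ≤ 0.000961 := by nlinarith
    nlinarith [sq_nonneg (d - 0.0225), mul_nonneg (sq_nonneg d) (sub_nonneg.2 h5),
      mul_nonneg h0 (sq_nonneg d)]) (x := x)
    (by push_cast; linarith) (by push_cast; linarith)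
  push_cast at c2
  rw [Function.iterate_succ_apply]
  exact down20 h1 (by linarith)

/-- from `40` down to `1` -/
theorem down40 {x : ℝ} (h : Trap 40 x) : 1 ≤ f^[7] x ∧ f^[7] x ≤ 1.02 := by
  have hb : b 40 = 5 / 486 := by unfold b; norm_num
  obtain ⟨h2, h3⟩ := h
  rw [hb] at h3
  push_cast at h2 h3
  obtain ⟨a1, a2⟩ := up_even 20 (E := 5 / 486) (E' := 0.01695) (by norm_num) (x := x)
    (by push_cast; linarith) (by push_cast; linarith)
  rw [Function.iterate_succ_apply]
  push_cast at a1 a2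
  exact down20 a1 a2

/-- from `16` down to `1` -/
theorem down16 {x : ℝ} (h1 : 16 ≤ x) (h2 : x ≤ 16 + 0.0146) : 1 ≤ f^[4] x ∧ f^[4] x ≤ 1.02 := by
  obtain ⟨a1, a2⟩ := up_even 8 (E := 0.0146) (E' := 0.016) (by norm_num) (x := x)
    (by push_cast; linarith) (by push_cast; linarith)
  obtain ⟨b1, b2⟩ := up_even 4 (E := 0.016) (E' := 0.0134) (by norm_num) (x := f x)
    (by push_cast at *; linarith) (by push_cast at *; linarith)
  obtain ⟨c1, c2⟩ := up_even 2 (E := 0.0134) (E' := 0.0087) (by norm_num) (x := f (f x))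
    (by push_cast at *; linarith) (by push_cast at *; linarith)
  obtain ⟨d1, d2⟩ := up_even 1 (E := 0.0087) (E' := 0.0049) (by norm_num) (x := f (f (f x)))
    (by push_cast at *; linarith) (by push_cast at *; linarith)
  push_cast at d1 d2
  exact ⟨d1, by simp only [Function.iterate_succ, Function.iterate_zero, Function.comp, id]; linarith⟩

/-- from `128` down to `1` -/
theorem down128 {x : ℝ} (h : Trap 128 x) : 1 ≤ f^[7] x ∧ f^[7] x ≤ 1.02 := by
  have hb : b 128 = 5 / 1542 := by unfold b; norm_num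
  obtain ⟨h2, h3⟩ := h
  rw [hb] at h3
  push_cast at h2 h3
  obtain ⟨a1, a2⟩ := up_even 64 (E := 5 / 1542) (E' := 0.005) (by norm_num) (x := x)
    (by push_cast; linarith) (by push_cast; linarith)
  obtain ⟨b1, b2⟩ := up_even 32 (E := 0.005) (E' := 0.0065) (by norm_num) (x := f x)
    (by push_cast at *; linarith) (by push_cast at *; linarith)
  obtain ⟨c1, c2⟩ := up_even 16 (E := 0.0065) (E' := 0.0067) (by norm_num) (x := f (f x))
    (by push_cast at *; linarith) (by push_cast at *; linarith)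
  rw [show (7 : ℕ) = 4 + 3 by norm_num, Function.iterate_add_apply]
  push_cast at c1 c2
  exact down16 c1 (by simp only [Function.iterate_succ, Function.iterate_zero, Function.comp, id]; linarith)

/-- from `21` down to `1` -/
theorem down21 {x : ℝ} (h : Trap 21 x) : 1 ≤ f^[6] x ∧ f^[6] x ≤ 1.02 := by
  have hb : b 21 = 5 / 258 := by unfold b; norm_num
  have h1 := (trap (n := 21) (by norm_num) h).1
  have e : T 21 = 32 := by decide
  rw [e] at h1
  obtain ⟨h2, h3⟩ := h
  rw [hb] at h3
  push_cast at h1 h2 h3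
  have c2 := up_odd 10 (E := 5 / 258) (E' := 0.0107) (by
    intro d h0 h3
    push_cast
    have h4 : d ≤ 0.02 := by linarith
    have h5 : d ^ 2 ≤ 0.0004 := by nlinarith
    nlinarith [sq_nonneg (d - 0.0141), mul_nonneg (sq_nonneg d) (sub_nonneg.2 h5),
      mul_nonneg h0 (sq_nonneg d)]) (x := x)
    (by push_cast; linarith) (by push_cast; linarith)
  push_cast at c2
  obtain ⟨a1, a2⟩ := up_even 16 (E := 0.0107) (E' := 0.0146) (by norm_num) (x := f x)
    (by push_cast; linarith) (by push_cast; linarith)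
  rw [show (6 : ℕ) = 4 + 2 by norm_num, Function.iterate_add_apply]
  push_cast at a1 a2
  exact down16 a1 a2

/-! ### arithmetic of the `3x+1` map -/

theorem T_mod3 {n : ℕ} (h : T n % 3 = 0) : n % 2 = 0 ∧ n % 3 = 0 ∧ T n ≤ n := by
  unfold T at *
  split_ifs at h ⊢ <;> omega

theorem mod3_back {n : ℕ} (i : ℕ) (h : T^[i] n % 3 = 0) : T^[i] n ≤ n ∧ (0 < i → n % 2 = 0) ∧ n % 3 = 0 := by
  induction i generalizing n with
  | zero => exact ⟨le_rfl, fun h => absurd h (lt_irrefl _), h⟩
  | succ i ih =>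
    rw [Function.iterate_succ_apply] at h ⊢
    obtain ⟨h1, -, h3⟩ := ih h
    obtain ⟨h4, h5, h6⟩ := T_mod3 h3
    exact ⟨h1.trans h6, fun _ => h4, h5⟩

theorem le_two_pow (n i : ℕ) : n ≤ 2 ^ i * T^[i] n := by
  induction i with
  | zero => simp
  | succ i ih =>
    rw [Function.iterate_succ_apply', pow_succ]
    have : T^[i] n ≤ 2 * T (T^[i] n) := by
      unfold T
      split_ifs <;> omega
    calc n ≤ 2 ^ i * T^[i] n := ih
      _ ≤ 2 ^ i * (2 * T (T^[i] n)) := Nat.mul_le_mul_left _ this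
      _ = 2 ^ i * 2 * T (T^[i] n) := by ring

theorem depth7 : ∀ n ≤ 128, T^[7] n = 1 → (∀ j < 7, T^[j] n ≠ 1) →
    n = 128 ∨ n = 42 ∨ n = 40 ∨ n = 13 ∨ n = 12 := by decide +kernel

theorem depth6 : ∀ n ≤ 64, n % 2 = 1 → (∃ j ≤ 6, T^[j] n = 1) → n = 1 ∨ n = 3 ∨ n = 5 ∨ n = 21 := by
  decide +kernel

/-- attraction by the cycle `{1, 2}` -/
theorem attracts_one {x : ℝ} (h1 : 1 ≤ x) (h2 : x ≤ 1.02) : Attracts 1 x := by
  obtain ⟨a, ha, hga⟩ := exists_a2
  have hJ := J_iter h1 (by linarith)
  have hanti : ∀ i, 1 ≤ g^[i] x ∧ g^[i] x ≤ 1.02 ∧ g^[i + 1] x ≤ g^[i] x := by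
    intro i
    induction i with
    | zero =>
      refine ⟨h1, h2, ?_⟩
      simp only [Function.iterate_zero, zero_add, Function.iterate_one, id]
      rcases h1.lt_or_eq with h | h
      · exact (g_lt h h2).le
      · rw [← h]
        have : g 1 = 1 := by unfold g; rw [f_one, f_two]
        rw [this]
    | succ i ih =>
      obtain ⟨i1, i2, i3⟩ := ih
      have j1 := (hJ (i + 1)).1
      refine ⟨j1, i3.trans i2, ?_⟩
      rw [Function.iterate_succ_apply' g (i + 1)]
      rcases j1.lt_or_eq with h | h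
      · exact (g_lt h (i3.trans i2)).le
      · rw [← h]
        have : g 1 = 1 := by unfold g; rw [f_one, f_two]
        rw [this]
  have hlim : Tendsto (fun k => g^[k] x) atTop (𝓝 1) := by
    have hm : Antitone (fun k => g^[k] x) := antitone_nat_of_succ_le fun k => (hanti k).2.2
    have hL := tendsto_atTop_ciInf hm ⟨1, by rintro _ ⟨k, rfl⟩; exact (hanti k).1⟩
    have hfix := limit_fixed hL
    have hL1 : 1 ≤ ⨅ k, g^[k] x := ge_of_tendsto' hL fun k => (hanti k).1
    have hL2 : (⨅ k, g^[k] x) ≤ 1.02 := le_of_tendsto' hL fun k => (hanti k).2.1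
    rcases hL1.lt_or_eq with h | h
    · have := g_lt h hL2
      linarith
    · rw [← h] at hL
      exact hL
  refine ⟨0, ?_⟩
  rw [minPer_one]
  refine hlim.congr fun k => ?_
  rw [g_iter, add_zero, mul_comm]

/-- an orbit in the trap intervals reaching `1` in exactly `r ≥ 7` steps -/
theorem trap_fate {n r : ℕ} (h7 : 7 ≤ r) (hr : T^[r] n = 1) (hmin : ∀ j < r, T^[j] n ≠ 1)
    (h3 : T^[r - 7] n % 3 ≠ 0 ∨ T^[r - 7] n % 2 = 1) {x : ℝ} (hx : Trap (T^[r - 7] n) x) :
    Attracts 1 x := by
  set m := T^[r - 7] n with hm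
  have e1 : T^[7] m = 1 := by
    rw [hm, ← Function.iterate_add_apply, show 7 + (r - 7) = r by omega]
    exact hr
  have e2 : ∀ j < 7, T^[j] m ≠ 1 := by
    intro j hj
    rw [hm, ← Function.iterate_add_apply]
    exact hmin _ (by omega)
  have e3 : m ≤ 128 := by
    have := le_two_pow m 7
    rw [e1] at this
    omega
  have key : 1 ≤ f^[7] x ∧ f^[7] x ≤ 1.02 := by
    rcases depth7 m e3 e1 e2 with h | h | h | h | h
    · rw [h] at hx; exact down128 hx
    · exfalso; rw [h] at h3; omega
    · rw [h] at hx; exact down40 hx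
    · rw [h] at hx; exact down13 hx
    · exfalso; rw [h] at h3; omega
  exact attracts_of_iter (K := 7) (attracts_one key.1 key.2)

/-- an orbit which converges to the cycle `{1, 2}` does not converge to the other known cycle -/
theorem not_both {a : ℝ} (ha : a ∈ Set.Icc (1.19 : ℝ) 1.196) (hga : g a = a) {x : ℝ}
    (h1 : Attracts 1 x) (h2 : Attracts a x) : False := by
  have key : ∀ {y z : ℝ} (i j : ℕ), i ≤ j → Tendsto (fun k : ℕ => f^[k * 2 + i] x) atTop (𝓝 y) →
      Tendsto (fun k : ℕ => f^[k * 2 + j] x) atTop (𝓝 z) → z = y ∨ z = f y := by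
    intro y z i j hij hy hz
    obtain ⟨d, rfl⟩ := Nat.exists_eq_add_of_le hij
    rcases Nat.even_or_odd' d with ⟨r, rfl | rfl⟩
    · left
      have h3 : Tendsto (fun k : ℕ => f^[(k + r) * 2 + i] x) atTop (𝓝 y) :=
        (tendsto_add_atTop_iff_nat r).2 hy
      refine tendsto_nhds_unique hz (h3.congr fun k => ?_)
      congr 1
      ring
    · right
      have h3 : Tendsto (fun k : ℕ => f (f^[(k + r) * 2 + i] x)) atTop (𝓝 (f y)) :=
        (continuous_f.tendsto y).comp ((tendsto_add_atTop_iff_nat r).2 hy)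
      refine tendsto_nhds_unique hz (h3.congr fun k => ?_)
      rw [← Function.iterate_succ_apply' f]
      congr 1
      omega
  obtain ⟨i, hi⟩ := h1
  obtain ⟨j, hj⟩ := h2
  rw [minPer_one] at hi
  rw [minPer_a ha hga] at hj
  have hfa : 2 ≤ f a := f_ge_2 (by linarith [ha.1]) (by linarith [ha.2])
  rcases le_total i j with h | h
  · rcases key i j h hi hj with h | h
    · linarith [ha.1]
    · rw [f_one] at h; linarith [ha.2]
  · rcases key j i h hj hi with h | h
    · linarith [ha.1]
    · linarith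

end Pool.Agent.Helper29K9.Cham
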