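import Pool.Agent.Helper29K9.Cham.Fol

/-!
Chamberland's map: an exceptional attracting cycle has a period larger than nine.
-/

set_option autoImplicit false

namespace Pool.Agent.Helper29K9.Cham

open Pool.Agent.H934R2.Ch Pool.Agent.Y296.CB Filter Topology

theorem f_half {x : ℝ} (hx : 0 ≤ x) : x / 2 ≤ f x := by
  unfold f
  have h := Real.cos_le_one (Real.pi * x)
  have := mul_nonneg (by linarith : 0 ≤ (2 * x + 1) / 4) (by linarith : 0 ≤ 1 - Real.cos (Real.pi * x))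
  nlinarith

theorem one_sub_cos {d E : ℝ} (h : |d| ≤ E) : 0 ≤ 1 - Real.cos (Real.pi * d) ∧
    1 - Real.cos (Real.pi * d) ≤ 4.93485 * E ^ 2 := by
  constructor
  · linarith [Real.cos_le_one (Real.pi * d)]
  · have h1 := cos_lb2 (Real.pi * d)
    have h2 : d ^ 2 ≤ E ^ 2 := sq_le_sq' (by linarith [neg_abs_le d]) (by linarith [le_abs_self d])
    have h3 := pi_sq_lt
    have h4 : (Real.pi * d) ^ 2 ≤ 9.8697 * E ^ 2 := by
      rw [mul_pow]
      exact mul_le_mul h3.le h2 (sq_nonneg d) (by norm_num)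
    linarith

/-- the deviation after an even step -/
theorem dev_even {h k : ℕ} (hk : h = 2 * k) {x E u ε : ℝ} (hE : |x - h| ≤ E) (hu : (2 * (h : ℝ) + 1) * E ≤ u)
    (hε : E ≤ ε) : |f x - k| ≤ E * (1 / 2 + 1.2338 * (u + 2 * ε ^ 2)) := by
  subst hk
  have hE0 : 0 ≤ E := (abs_nonneg _).trans hE
  obtain ⟨d, hd⟩ : ∃ d : ℝ, d = x - (2 * k : ℕ) := ⟨_, rfl⟩
  rw [← hd] at hE
  have hx : x = (2 * k : ℕ) + d := by rw [hd]; ring
  obtain ⟨c0, c1⟩ := one_sub_cos hE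
  rw [hx, f_even]
  obtain ⟨c, hc⟩ : ∃ c : ℝ, c = 1 - Real.cos (Real.pi * d) := ⟨_, rfl⟩
  have e1 : (k : ℝ) + ((4 * k + 1) / 4 * (1 - Real.cos (Real.pi * d)) + d * (1 - Real.cos (Real.pi * d) / 2)) - k =
      d / 2 + ((4 * k + 1) / 4 + d / 2) * c := by rw [hc]; ring
  rw [e1]
  rw [← hc] at c0 c1
  have hkR : (0 : ℝ) ≤ k := by positivity
  have h2 : |d / 2 + ((4 * (k : ℝ) + 1) / 4 + d / 2) * c| ≤ E / 2 + ((4 * (k : ℝ) + 1) / 4 + E / 2) * c := by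
    refine (abs_add_le _ _).trans ?_
    rw [abs_mul, abs_of_nonneg c0]
    have a1 : |d / 2| ≤ E / 2 := by rw [abs_div]; norm_num; linarith
    have a2 : |(4 * (k : ℝ) + 1) / 4 + d / 2| ≤ (4 * (k : ℝ) + 1) / 4 + E / 2 := by
      refine (abs_add_le _ _).trans ?_
      rw [abs_of_nonneg (by positivity : (0 : ℝ) ≤ (4 * k + 1) / 4)]
      linarith
    have := mul_le_mul_of_nonneg_right a2 c0
    linarith
  refine h2.trans ?_
  have h3 : ((4 * (k : ℝ) + 1) / 4 + E / 2) * c ≤ ((4 * (k : ℝ) + 1) / 4 + E / 2) * (4.93485 * E ^ 2) :=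
    mul_le_mul_of_nonneg_left c1 (by positivity)
  have h4 : E ^ 2 ≤ ε ^ 2 := pow_le_pow_left₀ hE0 hε 2
  push_cast at hu
  have h5 : ((4 * (k : ℝ) + 1) / 4 + E / 2) * (4.93485 * E ^ 2) ≤ E * (1.2338 * (u + 2 * ε ^ 2)) := by
    have : ((4 * (k : ℝ) + 1) / 4 + E / 2) * (4.93485 * E ^ 2) =
      E * (1.2337125 * ((2 * (2 * (k : ℝ)) + 1) * E + 2 * E ^ 2)) := by ring
    rw [this]
    apply mul_le_mul_of_nonneg_left _ hE0
    have hu0 : 0 ≤ u := le_trans (by positivity) hu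
    nlinarith [sq_nonneg ε]
  linarith

/-- the deviation after an odd step -/
theorem dev_odd {h k : ℕ} (hk : h = 2 * k + 1) {x E u ε : ℝ} (hE : |x - h| ≤ E) (hu : (2 * (h : ℝ) + 1) * E ≤ u)
    (hε : E ≤ ε) : |f x - (3 * k + 2)| ≤ E * (3 / 2 + 1.2338 * (u + 2 * ε ^ 2)) := by
  subst hk
  have hE0 : 0 ≤ E := (abs_nonneg _).trans hE
  obtain ⟨d, hd⟩ : ∃ d : ℝ, d = x - (2 * k + 1 : ℕ) := ⟨_, rfl⟩
  rw [← hd] at hE
  have hx : x = (2 * k + 1 : ℕ) + d := by rw [hd]; ring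
  obtain ⟨c0, c1⟩ := one_sub_cos hE
  rw [hx, f_odd]
  obtain ⟨c, hc⟩ : ∃ c : ℝ, c = 1 - Real.cos (Real.pi * d) := ⟨_, rfl⟩
  have e1 : (3 * (k : ℝ) + 2) + (d * (1 + Real.cos (Real.pi * d) / 2)
      - (4 * k + 3) / 4 * (1 - Real.cos (Real.pi * d))) - (3 * k + 2) =
      3 * d / 2 - ((4 * k + 3) / 4 + d / 2) * c := by rw [hc]; ring
  rw [e1]
  rw [← hc] at c0 c1
  have hkR : (0 : ℝ) ≤ k := by positivity
  have h2 : |3 * d / 2 - ((4 * (k : ℝ) + 3) / 4 + d / 2) * c| ≤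
      3 * E / 2 + ((4 * (k : ℝ) + 3) / 4 + E / 2) * c := by
    refine (abs_sub _ _).trans ?_
    rw [abs_mul, abs_of_nonneg c0]
    have a1 : |3 * d / 2| ≤ 3 * E / 2 := by rw [abs_div, abs_mul]; norm_num; linarith
    have a2 : |(4 * (k : ℝ) + 3) / 4 + d / 2| ≤ (4 * (k : ℝ) + 3) / 4 + E / 2 := by
      refine (abs_add_le _ _).trans ?_
      have a3 : |d / 2| ≤ E / 2 := by rw [abs_div]; norm_num; linarith
      rw [abs_of_nonneg (by positivity : (0 : ℝ) ≤ (4 * k + 3) / 4)]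
      linarith
    have := mul_le_mul_of_nonneg_right a2 c0
    linarith
  refine h2.trans ?_
  have h3 : ((4 * (k : ℝ) + 3) / 4 + E / 2) * c ≤ ((4 * (k : ℝ) + 3) / 4 + E / 2) * (4.93485 * E ^ 2) :=
    mul_le_mul_of_nonneg_left c1 (by positivity)
  have h4 : E ^ 2 ≤ ε ^ 2 := pow_le_pow_left₀ hE0 hε 2
  push_cast at hu
  have h5 : ((4 * (k : ℝ) + 3) / 4 + E / 2) * (4.93485 * E ^ 2) ≤ E * (1.2338 * (u + 2 * ε ^ 2)) := by
    have : ((4 * (k : ℝ) + 3) / 4 + E / 2) * (4.93485 * E ^ 2) =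
      E * (1.2337125 * ((2 * (2 * (k : ℝ) + 1) + 1) * E + 2 * E ^ 2)) := by ring
    rw [this]
    apply mul_le_mul_of_nonneg_left _ hE0
    have hu0 : 0 ≤ u := le_trans (by positivity) hu
    nlinarith [sq_nonneg ε]
  linarith

end Pool.Agent.Helper29K9.Cham
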