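import Pool.Agent.Helper29K9.Cham.Nine

/-!
Chamberland's map: an exceptional attracting cycle has a period larger than nine (the steps after the
run of five odd terms).
-/

set_option autoImplicit false

namespace Pool.Agent.Helper29K9.Cham

open Pool.Agent.H934R2.Ch Pool.Agent.Y296.CB Filter Topology

/-- distance after the run -/
theorem after_run {h : ℕ} (hh : 242 ≤ h) {x : ℝ} (h1 : x < h) (h2 : ts h (h - x) ≤ 10.86) :
    |x - h| ≤ 4.402 / (2 * h + 1) ∧ 4.402 / (2 * (h : ℝ) + 1) ≤ 0.009077 ∧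
      (2 * (h : ℝ) + 1) * (4.402 / (2 * h + 1)) ≤ 4.402 := by
  have hR : (242 : ℝ) ≤ h := by exact_mod_cast hh
  refine ⟨?_, ?_, ?_⟩
  · rw [abs_of_neg (by linarith), le_div_iff₀ (by positivity)]
    unfold ts at h2
    have h3 := pi_sq_gt
    have h4 : 0 ≤ (2 * (h : ℝ) + 1) * (h - x) := mul_nonneg (by positivity) (by linarith)
    nlinarith
  · rw [div_le_iff₀ (by positivity)]
    linarith
  · rw [mul_div_cancel₀]
    positivity

/-- one step after the run -/
theorem one_after {h : ℕ} (hh : 242 ≤ h) {x : ℝ} (h1 : x < h) (h2 : ts h (h - x) ≤ 10.86) :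
    |f x - T h| ≤ 0.064 := by
  obtain ⟨a1, a2, a3⟩ := after_run hh h1 h2
  rcases Nat.even_or_odd' h with ⟨k, hk | hk⟩
  · have := dev_even hk a1 a3 a2
    rw [hk, T_even]
    exact this.trans ((mul_le_mul_of_nonneg_right a2 (by norm_num)).trans (by norm_num))
  · have := dev_odd hk a1 a3 a2
    rw [hk, T_odd]
    push_cast
    exact this.trans ((mul_le_mul_of_nonneg_right a2 (by norm_num)).trans (by norm_num))

/-- one even step after the run -/
theorem one_after_even {h k : ℕ} (hh : 242 ≤ h) (hk : h = 2 * k) {x : ℝ} (h1 : x < h)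
    (h2 : ts h (h - x) ≤ 10.86) :
    |f x - k| ≤ 26.11 / (2 * h + 1) ∧ 26.11 / (2 * (h : ℝ) + 1) ≤ 0.05384 := by
  obtain ⟨a1, a2, a3⟩ := after_run hh h1 h2
  have hR : (242 : ℝ) ≤ h := by exact_mod_cast hh
  constructor
  · refine (dev_even hk a1 a3 a2).trans ?_
    rw [div_mul_eq_mul_div]
    apply div_le_div_of_nonneg_right _ (by positivity)
    norm_num
  · rw [div_le_iff₀ (by positivity)]
    linarith

/-- two steps after the run, the first one even -/
theorem two_after_even {h k : ℕ} (hh : 242 ≤ h) (hk : h = 2 * k) {x : ℝ} (h1 : x < h)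
    (h2 : ts h (h - x) ≤ 10.86) : |f (f x) - T k| ≤ 0.952 := by
  obtain ⟨a1, a2⟩ := one_after_even hh hk h1 h2
  have hkR : (121 : ℝ) ≤ k := by
    have : 121 ≤ k := by omega
    exact_mod_cast this
  have hhk : (h : ℝ) = 2 * k := by rw [hk]; push_cast; ring
  have a3 : (2 * (k : ℝ) + 1) * (26.11 / (2 * h + 1)) ≤ 13.083 := by
    rw [mul_div_assoc', div_le_iff₀ (by positivity), hhk]
    linarith
  rcases Nat.even_or_odd' k with ⟨m, hm | hm⟩
  · have := dev_even hm a1 a3 a2
    rw [hm, T_even]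
    exact this.trans ((mul_le_mul_of_nonneg_right a2 (by norm_num)).trans (by norm_num))
  · have := dev_odd hm a1 a3 a2
    rw [hm, T_odd]
    push_cast
    exact this.trans ((mul_le_mul_of_nonneg_right a2 (by norm_num)).trans (by norm_num))

theorem T_ge_odd {h : ℕ} (ho : h % 2 = 1) : (3 / 2 : ℝ) * h ≤ T h := by
  rw [T_of_odd ho]
  have : 3 * h + 1 = 2 * ((3 * h + 1) / 2) := by omega
  have h2 : (3 * (h : ℝ) + 1) = 2 * ((3 * h + 1) / 2 : ℕ) := by exact_mod_cast this
  linarith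

theorem T_of_even {h : ℕ} (he : h % 2 = 0) : T h = h / 2 := by
  unfold T
  rw [if_pos he]

theorem T_cast_even {h : ℕ} (ho : h % 2 = 0) : ((T h : ℕ) : ℝ) = h / 2 := by
  obtain ⟨k, rfl⟩ : ∃ k, h = 2 * k := ⟨h / 2, by omega⟩
  rw [T_even]; push_cast; ring

/-- case `q = 1` -/
theorem case_one {h n : ℕ} (hh : 242 ≤ h) (hn : 30 ≤ n) {x y : ℝ} (h1 : x < h) (h2 : ts h (h - x) ≤ 10.86)
    (hy : f x = y) (hyn : y < n) (hyn2 : (n : ℝ) - y < 1 / (4 * n + 2)) : T h = n := by
  have h3 := one_after hh h1 h2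
  rw [hy] at h3
  have hnR : (30 : ℝ) ≤ n := by exact_mod_cast hn
  have h4 : 1 / (4 * (n : ℝ) + 2) ≤ 0.01 := by
    rw [div_le_iff₀ (by positivity)]; linarith
  obtain ⟨h5, h6⟩ := abs_le.1 h3
  have h7 : ((T h : ℕ) : ℝ) < n + 1 := by linarith
  have h8 : (n : ℝ) < (T h : ℕ) + 1 := by linarith
  have h9 : T h < n + 1 := by exact_mod_cast h7
  have h10 : n < T h + 1 := by exact_mod_cast h8
  omega

/-- case `q = 2` -/
theorem case_two {h n : ℕ} (hh : 242 ≤ h) (hn : 30 ≤ n) (hhn : 3 * n ≤ 2 * h) {x y : ℝ} (h1 : x < h)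
    (h2 : ts h (h - x) ≤ 10.86) (hy : f (f x) = y) (hyn : y < n) (hyn2 : (n : ℝ) - y < 1 / (4 * n + 2)) :
    T (T h) = n := by
  have hnR : (30 : ℝ) ≤ n := by exact_mod_cast hn
  have h4 : 1 / (4 * (n : ℝ) + 2) ≤ 0.01 := by
    rw [div_le_iff₀ (by positivity)]; linarith
  rcases Nat.mod_two_eq_zero_or_one h with he | ho
  · have hk : h = 2 * (h / 2) := by omega
    have h3 := two_after_even hh hk h1 h2
    have hT : T h = h / 2 := by unfold T; rw [if_pos he]
    rw [hy, ← hT] at h3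
    obtain ⟨h5, h6⟩ := abs_le.1 h3
    have h7 : ((T (T h) : ℕ) : ℝ) < n + 1 := by linarith
    have h8 : (n : ℝ) < (T (T h) : ℕ) + 1 := by linarith
    have h9 : T (T h) < n + 1 := by exact_mod_cast h7
    have h10 : n < T (T h) + 1 := by exact_mod_cast h8
    omega
  · exfalso
    have h3 := one_after hh h1 h2
    obtain ⟨h5, h6⟩ := abs_le.1 h3
    have h7 := T_ge_odd ho
    have hhR : (242 : ℝ) ≤ h := by exact_mod_cast hh
    have h8 := f_half (x := f x) (by linarith)
    have h9 : 3 * (n : ℝ) ≤ 2 * h := by exact_mod_cast hhn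
    rw [hy] at h8
    linarith

theorem arith95 {h a m : ℕ} (ha : 32 * h = 243 * a + 211) (hm : h = 4 * m) (ha1 : 31 ≤ a) : 95 ≤ a := by
  obtain ⟨g, rfl⟩ : ∃ g, a = g + 31 := ⟨a - 31, by omega⟩
  have h1 : g % 32 = 0 := by omega
  obtain ⟨r, rfl⟩ : ∃ r, g = 32 * r := ⟨g / 32, by omega⟩
  have h2 : h = 243 * r + 242 := by omega
  omega

/-- case `q = 3` -/
theorem case_three {h a : ℕ} (ha : 32 * h = 243 * a + 211) (ha1 : 31 ≤ a) {x y : ℝ} (h1 : x < h)
    (h2 : ts h (h - x) ≤ 10.86) (hy : f (f (f x)) = y) (hyn : y < (2 * a : ℕ))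
    (hyn2 : ((2 * a : ℕ) : ℝ) - y < 1 / (4 * (2 * a : ℕ) + 2)) : False := by
  have hh : 242 ≤ h := by omega
  have haR : (31 : ℝ) ≤ a := by exact_mod_cast ha1
  have hhR : (242 : ℝ) ≤ h := by exact_mod_cast hh
  have haR2 : 32 * (h : ℝ) = 243 * a + 211 := by exact_mod_cast ha
  push_cast at hyn hyn2
  have h4 : 1 / (4 * (2 * (a : ℝ)) + 2) ≤ 0.01 := by
    rw [div_le_iff₀ (by positivity)]; linarith
  rcases Nat.mod_two_eq_zero_or_one h with he | ho
  · have hk : h = 2 * (h / 2) := by omega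
    obtain ⟨k, hkd⟩ : ∃ k, k = h / 2 := ⟨_, rfl⟩
    rw [← hkd] at hk
    have hkR : (h : ℝ) = 2 * k := by rw [hk]; push_cast; ring
    rcases Nat.mod_two_eq_zero_or_one k with he2 | ho2
    · -- two even steps
      obtain ⟨m, hm⟩ : ∃ m, k = 2 * m :=
        ⟨k / 2, (Nat.mul_div_cancel' (Nat.dvd_of_mod_eq_zero he2)).symm⟩
      have hmR : (k : ℝ) = 2 * m := by rw [hm]; push_cast; ring
      have ha95 : 95 ≤ a := arith95 ha (by rw [hk, hm]; ring) ha1
      have haR' : (95 : ℝ) ≤ a := by exact_mod_cast ha95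
      have hm182 : (182 : ℝ) ≤ m := by linarith
      obtain ⟨a1, a2⟩ := one_after_even hh hk h1 h2
      have a3 : (2 * (k : ℝ) + 1) * (26.11 / (2 * h + 1)) ≤ 13.07 := by
        rw [mul_div_assoc', div_le_iff₀ (by positivity)]
        linarith
      have b1 := dev_even hm a1 a3 a2
      obtain ⟨E, hE⟩ : ∃ E : ℝ, E = 434.5 / (2 * h + 1) := ⟨_, rfl⟩
      have hE1 : (2 * (h : ℝ) + 1) * E = 434.5 := by
        rw [hE, mul_div_cancel₀]; positivity
      have hE0 : 0 ≤ E := by rw [hE]; positivity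
      have b2 : |f (f x) - m| ≤ E := by
        refine b1.trans ?_
        rw [hE, div_mul_eq_mul_div]
        apply div_le_div_of_nonneg_right _ (by positivity)
        norm_num
      have hhm : (h : ℝ) = 4 * m := by linarith
      have hh728 : 0 ≤ (2 * (h : ℝ) + 1 - 1457) * E := mul_nonneg (by linarith) hE0
      have b4 : E ≤ 0.299 := by linarith
      have b3 : (2 * (m : ℝ) + 1) * E ≤ 108.9 := by
        have : (2 * (m : ℝ) + 1) * E = (2 * (h : ℝ) + 1) * E / 4 + 3 / 4 * E := by rw [hhm]; ring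
        rw [this, hE1]
        linarith
      have b5 : E * (3 / 2 + 1.2338 * (108.9 + 2 * 0.299 ^ 2)) ≤ 0.2165 * (2 * a) := by
        have c1 : 15.1875 * (a : ℝ) * E ≤ 434.5 := by
          rw [← hE1]
          apply mul_le_mul_of_nonneg_right _ hE0
          linarith
        have c2 : 95 * E ≤ a * E := mul_le_mul_of_nonneg_right haR' hE0
        have c3 : E ≤ 434.5 / (15.1875 * a) := by
          rw [le_div_iff₀ (by positivity)]
          linarith
        have c4 : 434.5 / (15.1875 * (a : ℝ)) ≤ 434.5 / (15.1875 * 95) * (a / 95) := by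
          rw [div_le_iff₀ (by positivity)]
          nlinarith
        linarith
      rcases Nat.even_or_odd' m with ⟨r, hr | hr⟩
      · have c1 := dev_even hr b2 b3 b4
        rw [hy] at c1
        have hrR : (m : ℝ) = 2 * r := by rw [hr]; push_cast; ring
        obtain ⟨c2, c3⟩ := abs_le.1 c1
        linarith
      · have c1 := dev_odd hr b2 b3 b4
        rw [hy] at c1
        have hrR : (m : ℝ) = 2 * r + 1 := by rw [hr]; push_cast; ring
        obtain ⟨c2, c3⟩ := abs_le.1 c1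
        linarith
    · have h3 := two_after_even hh hk h1 h2
      obtain ⟨h5, h6⟩ := abs_le.1 h3
      have h7 := T_ge_odd ho2
      have h8 := f_half (x := f (f x)) (by linarith)
      rw [hy] at h8
      linarith
  · have h3 := one_after hh h1 h2
    obtain ⟨h5, h6⟩ := abs_le.1 h3
    have h7 := T_ge_odd ho
    have h8 := f_half (x := f x) (by linarith)
    have h9 := f_half (x := f (f x)) (by linarith)
    rw [hy] at h9
    linarith

end Pool.Agent.Helper29K9.Cham
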