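import Pool.Agent.Helper29K9.Cham.Low

/-!
Chamberland's map: the fate of the critical points above odd integers.
-/

set_option autoImplicit false

namespace Pool.Agent.Helper29K9.Cham

open Pool.Agent.H934R2.Ch Pool.Agent.Y296.CB Filter Topology

/-- attraction by the second known cycle -/
theorem attracts_a {a : ℝ} (ha : a ∈ Set.Icc (1.19 : ℝ) 1.196) (hga : g a = a) {x : ℝ}
    (h1 : 1.05 < x) (h2 : x ≤ 1 + 5 / 18) : Attracts a x := by
  obtain ⟨h3, h4⟩ := g_R h1 h2
  have h5 := conv_R ha hga h3 h4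
  refine ⟨2, ?_⟩
  rw [minPer_a ha hga]
  refine h5.congr fun k => ?_
  rw [g_iter]
  have : g x = f^[2] x := rfl
  rw [this, ← Function.iterate_add_apply, mul_comm]

/-- the critical value is the maximum -/
theorem crit_max (m : ℕ) {c : ℝ} (h1 : ((2 * m + 1 : ℕ) : ℝ) < c) (h2 : c < (2 * m + 1 : ℕ) + 1 / 2)
    (h : deriv f c = 0) {x : ℝ} (hx1 : ((2 * m + 1 : ℕ) : ℝ) ≤ x) (hx2 : x ≤ (2 * m + 1 : ℕ) + 1 / 2) :
    f x ≤ f c := by
  rw [deriv_f] at h
  obtain ⟨d, rfl⟩ : ∃ d, c = (2 * m + 1 : ℕ) + d := ⟨c - (2 * m + 1 : ℕ), by ring⟩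
  have hd0 : 0 < d := by linarith
  have hd1 : d < 1 / 2 := by linarith
  rcases le_total x ((2 * m + 1 : ℕ) + d) with hx | hx
  · have hmono : MonotoneOn f (Set.Icc ((2 * m + 1 : ℕ) : ℝ) ((2 * m + 1 : ℕ) + d)) := by
      apply monotoneOn_of_deriv_nonneg (convex_Icc _ _) continuous_f.continuousOn
        differentiable_f.differentiableOn
      intro s hs
      rw [interior_Icc] at hs
      rw [deriv_f]
      obtain ⟨e, rfl⟩ : ∃ e, s = (2 * m + 1 : ℕ) + e := ⟨s - (2 * m + 1 : ℕ), by ring⟩
      have := df_odd_anti m (d := e) (d' := d) (by linarith [hs.1]) (by linarith [hs.2]) hd1.le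
      rw [h] at this
      exact this.le
    exact hmono ⟨hx1, hx⟩ ⟨by linarith, le_rfl⟩ hx
  · have hanti : AntitoneOn f (Set.Icc ((2 * m + 1 : ℕ) + d) ((2 * m + 1 : ℕ) + 1 / 2)) := by
      apply antitoneOn_of_deriv_nonpos (convex_Icc _ _) continuous_f.continuousOn
        differentiable_f.differentiableOn
      intro s hs
      rw [interior_Icc] at hs
      rw [deriv_f]
      obtain ⟨e, rfl⟩ : ∃ e, s = (2 * m + 1 : ℕ) + e := ⟨s - (2 * m + 1 : ℕ), by ring⟩
      have := df_odd_anti m (d := d) (d' := e) hd0.le (by linarith [hs.1]) (by linarith [hs.2])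
      rw [h] at this
      exact this.le
    exact hanti ⟨le_rfl, h2.le⟩ ⟨hx, hx2⟩ hx

/-- from `8` down to `1`, lower bound -/
theorem up8 {x : ℝ} (h : Trap 8 x) (h1 : 8 + 0.0399 ≤ x) : 1.05 < f^[3] x := by
  have hb8 : b 8 = 5 / 102 := by unfold b; norm_num
  have hb4 : b 4 = 5 / 54 := by unfold b; norm_num
  have t4 := trap (n := 8) (by norm_num) h
  have e8 : T 8 = 4 := by decide
  have e4 : T 4 = 2 := by decide
  rw [e8] at t4
  have t2 := trap (n := 4) (by norm_num) t4
  rw [e4] at t2
  have h2 := h.2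
  rw [hb8] at h2
  have h4 := t4.2
  rw [hb4] at h4
  have h5 := t2.2
  rw [b2] at h5
  push_cast at h2 h4 h5
  have a1 := low_even 4 (L := 0.0399) (L' := 0.0534) (by norm_num) (by norm_num) (x := x)
    (by push_cast; linarith) (by push_cast; linarith)
  push_cast at a1
  have a2 := low_even 2 (L := 0.0534) (L' := 0.0586) (by norm_num) (by norm_num) (x := f x)
    (by push_cast; linarith) (by push_cast; linarith)
  push_cast at a2
  have a3 := low_even 1 (L := 0.0586) (L' := 0.0508) (by norm_num) (by norm_num) (x := f (f x))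
    (by push_cast; linarith) (by push_cast; linarith)
  push_cast at a3
  simp only [Function.iterate_succ, Function.iterate_zero, Function.comp, id]
  linarith

theorem trap8_a {a : ℝ} (ha : a ∈ Set.Icc (1.19 : ℝ) 1.196) (hga : g a = a) {x : ℝ} (h : Trap 8 x)
    (h1 : 8 + 0.0399 ≤ x) : Attracts a x := by
  have h2 := up8 h h1
  have h3 := shadow (n := 8) (by norm_num) h 3
  have e : T^[3] 8 = 1 := by decide
  rw [e, b1] at h3
  push_cast at h3
  exact attracts_of_iter (K := 3) (attracts_a ha hga h2 h3.2)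

theorem fate1 {a : ℝ} (ha : a ∈ Set.Icc (1.19 : ℝ) 1.196) (hga : g a = a) {c : ℝ}
    (h1 : 1 < c) (h2 : c < 1 + 1 / 2) (h : deriv f c = 0) : Attracts a c := by
  have ht := crit_in_trap (n := 1) (by norm_num) (by push_cast; linarith) (by push_cast; linarith) h
  rw [b1] at ht
  push_cast at ht
  refine attracts_a ha hga ?_ ht.2
  by_contra hcon
  have := df_pos_left h1.le (not_lt.1 hcon)
  rw [deriv_f] at h
  linarith

theorem fate5 {a : ℝ} (ha : a ∈ Set.Icc (1.19 : ℝ) 1.196) (hga : g a = a) {c : ℝ}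
    (h1 : 5 < c) (h2 : c < 5 + 1 / 2) (h : deriv f c = 0) : Attracts a c := by
  have ht := crit_in_trap (n := 5) (by norm_num) (by push_cast; linarith) (by push_cast; linarith) h
  have h8 := trap (n := 5) (by norm_num) ht
  have e5 : T 5 = 8 := by decide
  rw [e5] at h8
  have h3 := crit_max 2 (c := c) (by push_cast; linarith) (by push_cast; linarith) h
    (x := 5 + 0.0547) (by push_cast; norm_num) (by push_cast; norm_num)
  have h4 := low_odd 2 (L := 0.0547) (E := 0.0547) (L' := 0.0411) (by norm_num) (by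
    intro d hd1 hd2
    have : d = 0.0547 := le_antisymm hd2 hd1
    rw [this]
    norm_num) (x := 5 + 0.0547) (by push_cast; linarith) (by push_cast; linarith)
  push_cast at h4
  exact attracts_of_iter (K := 1) (trap8_a ha hga h8 (by rw [Function.iterate_one]; linarith))

theorem fate3 {a : ℝ} (ha : a ∈ Set.Icc (1.19 : ℝ) 1.196) (hga : g a = a) {c : ℝ}
    (h1 : 3 < c) (h2 : c < 3 + 1 / 2) (h : deriv f c = 0) : Attracts a c := by
  have ht := crit_in_trap (n := 3) (by norm_num) (by push_cast; linarith) (by push_cast; linarith) h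
  have h5 := trap (n := 3) (by norm_num) ht
  have e3 : T 3 = 5 := by decide
  rw [e3] at h5
  have h8 := trap (n := 5) (by norm_num) h5
  have e5 : T 5 = 8 := by decide
  rw [e5] at h8
  have hb3 : b 3 = 5 / 42 := by unfold b; norm_num
  rw [hb3] at ht
  have h3 := crit_max 1 (c := c) (by push_cast; linarith) (by push_cast; linarith) h
    (x := 3 + 0.085) (by push_cast; norm_num) (by push_cast; norm_num)
  have h4 := low_odd 1 (L := 0.085) (E := 0.085) (L' := 0.0639) (by norm_num) (by
    intro d hd1 hd2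
    have : d = 0.085 := le_antisymm hd2 hd1
    rw [this]
    norm_num) (x := 3 + 0.085) (by push_cast; linarith) (by push_cast; linarith)
  push_cast at h4
  have h6 := up_odd 1 (E := 5 / 42) (E' := 0.0642) (by
    intro d h0 h3
    push_cast
    have h4 : d ≤ 0.12 := by linarith
    have h5 : d ^ 2 ≤ 0.0144 := by nlinarith
    nlinarith [sq_nonneg (d - 0.085), mul_nonneg h0 (sq_nonneg (d - 0.085)),
      mul_nonneg (sq_nonneg d) (sub_nonneg.2 h5), mul_nonneg h0 (sub_nonneg.2 h4),
      mul_nonneg (mul_nonneg h0 h0) (sub_nonneg.2 h4)]) (x := c)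
    (by push_cast; linarith) (by push_cast; linarith [ht.2])
  push_cast at h6
  have h7 := low_odd 2 (L := 0.0639) (E := 0.0642) (L' := 0.0399) (by norm_num) (by
    intro d hd1 hd2
    push_cast
    nlinarith [mul_nonneg (sub_nonneg.2 hd1) (sub_nonneg.2 hd2), sq_nonneg d, sq_nonneg (d ^ 2),
      mul_nonneg (sq_nonneg d) (mul_nonneg (sub_nonneg.2 hd1) (sub_nonneg.2 hd2))]) (x := f c)
    (by push_cast; linarith) (by push_cast; linarith)
  push_cast at h7
  exact attracts_of_iter (K := 2) (trap8_a ha hga h8 (by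
    simp only [Function.iterate_succ, Function.iterate_zero, Function.comp, id]; linarith))

theorem small_m {m : ℕ} (hm : 1 ≤ m) {y : ℝ} (hy : y ∈ Set.Icc (m : ℝ) (m + b m)) (h1 : y < 2) :
    m = 1 := by
  have h2 : (m : ℝ) < 2 := lt_of_le_of_lt hy.1 h1
  have h3 : m < 2 := by exact_mod_cast h2
  omega

theorem reach_of_attracts {a : ℝ} (ha : a ∈ Set.Icc (1.19 : ℝ) 1.196) (hga : g a = a) {n : ℕ}
    (hn : 1 ≤ n) {x : ℝ} (hx : Trap n x) (h : Attracts 1 x ∨ Attracts a x) : ∃ k, T^[k] n = 1 := by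
  rcases h with h | h
  · obtain ⟨m, hm, hym, hi, _⟩ := attracts_D hn hx (by rw [minPer_one]; norm_num) h
    obtain ⟨i, _, hi⟩ := hi 0
    have := small_m hm hym (by norm_num)
    exact ⟨i, by rw [hi, this]⟩
  · obtain ⟨m, hm, hym, hi, _⟩ := attracts_D hn hx (by rw [minPer_a ha hga]; norm_num) h
    obtain ⟨i, _, hi⟩ := hi 0
    have := small_m hm hym (by linarith [ha.2])
    exact ⟨i, by rw [hi, this]⟩

/-- the fate of the critical point above an odd integer -/
theorem odd_fate {a : ℝ} (ha : a ∈ Set.Icc (1.19 : ℝ) 1.196) (hga : g a = a) {n : ℕ} (hn : n % 2 = 1)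
    {c : ℝ} (h1 : (n : ℝ) < c) (h2 : c < n + 1 / 2) (h : deriv f c = 0) :
    (Attracts a c ↔ n = 1 ∨ n = 3 ∨ n = 5) ∧
    (Attracts 1 c ↔ 7 ≤ n ∧ ∃ k, T^[k] n = 1) := by
  have hn1 : 1 ≤ n := by omega
  have ht := crit_in_trap hn h1 h2 h
  have small : n = 1 ∨ n = 3 ∨ n = 5 → Attracts a c := by
    rintro (rfl | rfl | rfl)
    · exact fate1 ha hga (by push_cast at h1; exact h1) (by push_cast at h2; exact h2) h
    · exact fate3 ha hga (by push_cast at h1; exact h1) (by push_cast at h2; exact h2) h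
    · exact fate5 ha hga (by push_cast at h1; exact h1) (by push_cast at h2; exact h2) h
  have large : 7 ≤ n → (∃ k, T^[k] n = 1) → Attracts 1 c := by
    intro h7 hk
    classical
    set r := Nat.find hk with hr
    have hr1 : T^[r] n = 1 := Nat.find_spec hk
    have hmin : ∀ j < r, T^[j] n ≠ 1 := fun j hj => Nat.find_min hk hj
    rcases Nat.lt_or_ge r 7 with h6 | h6
    · have h64 : n ≤ 64 := by
        have := le_two_pow n r
        rw [hr1] at this
        have h3 : 2 ^ r ≤ 2 ^ 6 := Nat.pow_le_pow_right (by norm_num) (by omega)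
        omega
      rcases depth6 n h64 hn ⟨r, by omega, hr1⟩ with h | h | h | h
      · omega
      · omega
      · omega
      · subst h
        obtain ⟨a1, a2⟩ := down21 ht
        exact attracts_of_iter (K := 6) (attracts_one a1 a2)
    · refine attracts_of_iter (K := r - 7) (trap_fate h6 hr1 hmin ?_ (shadow hn1 ht (r - 7)))
      by_contra hcon
      push Not at hcon
      obtain ⟨h3, h4⟩ := hcon
      obtain ⟨-, h5, -⟩ := mod3_back (r - 7) h3
      rcases Nat.eq_zero_or_pos (r - 7) with h8 | h8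
      · rw [h8] at h4
        exact h4 hn
      · have := h5 h8
        omega
  refine ⟨⟨fun h3 => ?_, small⟩, ⟨fun h3 => ?_, fun h3 => large h3.1 h3.2⟩⟩
  · by_contra hcon
    have hk := reach_of_attracts ha hga hn1 ht (Or.inr h3)
    exact not_both ha hga (large (by omega) hk) h3
  · have hk := reach_of_attracts ha hga hn1 ht (Or.inl h3)
    refine ⟨?_, hk⟩
    by_contra hcon
    exact not_both ha hga h3 (small (by omega))

end Pool.Agent.Helper29K9.Cham
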