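import Pool.Agent.Y296.CB.Main

/-!
Chamberland's map: an orbit which follows an orbit of the `3x+1` map from below, and which never enters
the trap intervals, cannot leave before five consecutive odd terms have occurred.
-/

set_option autoImplicit false

namespace Pool.Agent.Helper29K9.Cham

open Pool.Agent.H934R2.Ch Pool.Agent.Y296.CB Filter Topology

/-- the scaled deviation after an even step -/
noncomputable def G0 (k : ℕ) : ℝ := 0.1274 * (2 * (k : ℝ) + 1) / (4 * k + 1)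

theorem even_in {h : ℕ} (hev : h % 2 = 0) (h1 : 1 ≤ h) {x : ℝ} (hx : x ≤ h) (ht : ts h (h - x) ≤ 2.8)
    (hD : f x ∉ D) : f x < T h ∧ ts (T h) (T h - f x) ≤ G0 (T h) := by
  obtain ⟨k, rfl⟩ : ∃ k, h = 2 * k := ⟨h / 2, by omega⟩
  have hk : 1 ≤ k := by omega
  rw [T_even]
  obtain ⟨e, he⟩ : ∃ e : ℝ, e = (2 * k : ℕ) - x := ⟨_, rfl⟩
  have hxe : x = (2 * k : ℕ) - e := by rw [he]; ring
  have he0 : 0 ≤ e := by rw [he]; linarith
  rw [← he] at ht
  rw [hxe] at hD ⊢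
  have hlt : f ((2 * k : ℕ) - e) < k := by
    by_contra hcon
    push Not at hcon
    exact hD ⟨k, hk, hcon, even_over k hk he0 ht hcon⟩
  refine ⟨hlt, ?_⟩
  have h2 := (even_upper k hk he0).trans (first_bound (ts_nonneg _ he0) ht)
  have hkR : (1 : ℝ) ≤ k := by exact_mod_cast hk
  unfold G0 ts
  rw [le_div_iff₀ (by positivity)]
  have e1 : Real.pi ^ 2 * (2 * (k : ℝ) + 1) / 4 * (k - f ((2 * k : ℕ) - e)) * (4 * k + 1) =
      (2 * k + 1) * (Real.pi ^ 2 * (4 * (k : ℝ) + 1) / 4 * (k - f ((2 * k : ℕ) - e))) := by ring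
  rw [e1]
  have := mul_le_mul_of_nonneg_left h2 (by positivity : (0 : ℝ) ≤ 2 * k + 1)
  linarith

theorem odd_t {h : ℕ} (hodd : h % 2 = 1) {x τ τ' H : ℝ} (hx : x < h) (ht : ts h (h - x) ≤ τ)
    (hH0 : 0 < H) (hH : H ≤ 2 * h + 1) (hτ : (9 / 4 + 3 / 4 / H) * (τ * (1 + τ / 3)) ≤ τ') :
    f x < T h ∧ ts (T h) (T h - f x) ≤ τ' := by
  obtain ⟨m, rfl⟩ : ∃ m, h = 2 * m + 1 := ⟨h / 2, by omega⟩
  obtain ⟨e, he⟩ : ∃ e : ℝ, e = (2 * m + 1 : ℕ) - x := ⟨_, rfl⟩
  have hxe : x = (2 * m + 1 : ℕ) - e := by rw [he]; ring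
  have he0 : 0 < e := by rw [he]; linarith
  rw [← he] at ht
  rw [hxe]
  obtain ⟨h1, h2⟩ := odd_step' m he0.le
  have hT : ((T (2 * m + 1) : ℕ) : ℝ) = 3 * m + 2 := by rw [T_odd]; push_cast; ring
  rw [hT]
  refine ⟨by linarith, ?_⟩
  obtain ⟨t, htd⟩ : ∃ t : ℝ, t = ts (2 * m + 1) e := ⟨_, rfl⟩
  have ht0 : 0 ≤ t := by rw [htd]; exact ts_nonneg _ he0.le
  rw [← htd] at ht h2
  have hmR : (0 : ℝ) ≤ m := by positivity
  have hH' : H ≤ 4 * m + 3 := by push_cast at hH; linarith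
  have e3 : ts (T (2 * m + 1)) ((3 * m + 2 : ℝ) - f ((2 * m + 1 : ℕ) - e)) ≤
      Real.pi ^ 2 * (6 * m + 5) / 4 * (3 / 2 * e * (1 + t / 3)) := by
    unfold ts
    rw [hT]
    have e4 : Real.pi ^ 2 * (2 * (3 * (m : ℝ) + 2) + 1) / 4 = Real.pi ^ 2 * (6 * m + 5) / 4 := by ring
    rw [e4]
    exact mul_le_mul_of_nonneg_left h2 (by positivity)
  refine e3.trans ?_
  have e5 : Real.pi ^ 2 * (6 * (m : ℝ) + 5) / 4 * (3 / 2 * e * (1 + t / 3)) =
      (9 / 4 + 3 / 4 / (4 * m + 3)) * (t * (1 + t / 3)) := by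
    have : t = Real.pi ^ 2 * (4 * m + 3) / 4 * e := by
      rw [htd]; unfold ts; push_cast; ring
    have h3 : (4 * (m : ℝ) + 3) ≠ 0 := by positivity
    rw [show Real.pi ^ 2 * (6 * (m : ℝ) + 5) / 4 * (3 / 2 * e * (1 + t / 3)) =
      (9 / 4 + 3 / 4 / (4 * m + 3)) * ((Real.pi ^ 2 * (4 * m + 3) / 4 * e) * (1 + t / 3)) by
        field_simp; ring, ← this]
  rw [e5]
  refine le_trans ?_ hτ
  apply mul_le_mul
  · have : 3 / 4 / (4 * (m : ℝ) + 3) ≤ 3 / 4 / H := div_le_div_of_nonneg_left (by norm_num) hH0 hH'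
    linarith
  · apply mul_le_mul ht (by linarith) (by positivity) (ht0.trans ht)
  · positivity
  · positivity

theorem G0_le {k : ℕ} {M c : ℝ} (hM : M ≤ k) (hM0 : 0 ≤ M) (hc : 0.1274 * (2 * M + 1) / (4 * M + 1) ≤ c) :
    G0 k ≤ c := by
  refine le_trans ?_ hc
  unfold G0
  rw [div_le_div_iff₀ (by positivity) (by positivity)]
  nlinarith

theorem T_of_odd {h : ℕ} (hodd : h % 2 = 1) : T h = (3 * h + 1) / 2 := by
  unfold T
  rw [if_neg (by omega)]

/-- the terms of a run of odd numbers -/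
theorem run_terms {h : ℕ} (ℓ : ℕ) (o : ∀ j < ℓ, T^[j] h % 2 = 1) (hℓ : ℓ ≤ 5) :
    (1 ≤ ℓ → 1 ≤ h) ∧ (2 ≤ ℓ → 3 ≤ h) ∧ (3 ≤ ℓ → 7 ≤ h) ∧ (4 ≤ ℓ → 15 ≤ h) ∧ (5 ≤ ℓ → 31 ≤ h) := by
  have step : ∀ j < ℓ, T^[j + 1] h = (3 * T^[j] h + 1) / 2 := by
    intro j hj
    rw [Function.iterate_succ_apply', T_of_odd (o j hj)]
  refine ⟨fun h1 => ?_, fun h1 => ?_, fun h1 => ?_, fun h1 => ?_, fun h1 => ?_⟩
  · have a0 := o 0 (by omega)
    simp only [Function.iterate_zero, id] at a0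
    omega
  · have a0 := o 0 (by omega)
    have a1 := o 1 (by omega)
    have s0 : T^[1] h = (3 * T^[0] h + 1) / 2 := step 0 (by omega)
    simp only [Function.iterate_zero, id] at a0 s0
    omega
  · have a0 := o 0 (by omega)
    have a1 := o 1 (by omega)
    have a2 := o 2 (by omega)
    have s0 := step 0 (by omega)
    have s1 : T^[2] h = (3 * T^[1] h + 1) / 2 := step 1 (by omega)
    simp only [Function.iterate_zero, id, zero_add] at a0 s0
    omega
  · have a0 := o 0 (by omega)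
    have a1 := o 1 (by omega)
    have a2 := o 2 (by omega)
    have a3 := o 3 (by omega)
    have s0 := step 0 (by omega)
    have s1 : T^[2] h = (3 * T^[1] h + 1) / 2 := step 1 (by omega)
    have s2 : T^[3] h = (3 * T^[2] h + 1) / 2 := step 2 (by omega)
    simp only [Function.iterate_zero, id, zero_add] at a0 s0
    omega
  · have a0 := o 0 (by omega)
    have a1 := o 1 (by omega)
    have a2 := o 2 (by omega)
    have a3 := o 3 (by omega)
    have a4 := o 4 (by omega)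
    have s0 := step 0 (by omega)
    have s1 : T^[2] h = (3 * T^[1] h + 1) / 2 := step 1 (by omega)
    have s2 : T^[3] h = (3 * T^[2] h + 1) / 2 := step 2 (by omega)
    have s3 : T^[4] h = (3 * T^[3] h + 1) / 2 := step 3 (by omega)
    simp only [Function.iterate_zero, id, zero_add] at a0 s0
    omega

end Pool.Agent.Helper29K9.Cham
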